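import Pool.Agent.Y707.RX.Key

/-! Continuation of the quotients. -/

set_option autoImplicit false

namespace Pool.Agent.Y707.RX

open NumberField IsDedekindDomain Filter Topology
open Pool.Agent.W401.Cheb Pool.Agent.W540.BE
open Pool.Agent.H126R3 (Qc Qc_pos)
open Pool.Agent.W385.CP (Qc_zero card_Fc Fc hom_int Rs)
open Pool.Agent.W353.TD (ch rank)
open Pool.Agent.W353.FB (Fibration LocalValue ValueAt IsPartOf)
open Pool.Agent.Y707.PH (IsEigen Pts IsLocal averageValue eg md av wt cf Ph Off isLocal_unique)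

/-- the meromorphic order of `E` at `1` -/
theorem order_E {G : ℂ → ℂ} (hG : AnalyticAt ℂ G 1) (r : ℤ) {E : ℂ → ℂ}
    (hE : ∀ᶠ w in 𝓝 (1 : ℂ), E w = (w - 1) ^ r * Complex.exp (G w)) :
    MeromorphicAt E 1 ∧ meromorphicOrderAt E 1 = r := by
  have h1 : MeromorphicAt (fun w : ℂ => (w - 1) ^ r * Complex.exp (G w)) 1 := by
    refine MeromorphicAt.mul ?_ hG.cexp.meromorphicAt
    exact (MeromorphicAt.sub (MeromorphicAt.id 1) (MeromorphicAt.const 1 1)).zpow r
  have h2 : E =ᶠ[𝓝[≠] 1] fun w : ℂ => (w - 1) ^ r * Complex.exp (G w) :=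
    Filter.EventuallyEq.filter_mono hE nhdsWithin_le_nhds
  refine ⟨h1.congr h2.symm, ?_⟩
  rw [meromorphicOrderAt_congr h2, meromorphicOrderAt_eq_int_iff h1]
  exact ⟨fun w => Complex.exp (G w), hG.cexp, Complex.exp_ne_zero _,
    Filter.Eventually.of_forall fun z => rfl⟩

section
variable {K : Type} [Field K] [NumberField K] {f g : Fibration K}
  {R : Finset (HeightOneSpectrum (𝓞 K))} {C : ℝ} {F : Type} [Field F] [NumberField F]
  [Algebra K F]

open Classical in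
/-- **Gluing.** -/
theorem glue (hg : IsSmoothFamily g R C) {Λ₀ E G : ℂ → ℂ} {k r : ℤ}
    (h1 : ∀ w : ℂ, 3 / 2 < w.re → Ph g R F ((g.m : ℂ) + w) = Λ₀ w * E w)
    (h2 : ∀ x : ℝ, 1 ≤ x → MeromorphicAt Λ₀ (x : ℂ)) (h3 : meromorphicOrderAt Λ₀ 1 = k)
    (hE : DifferentiableOn ℂ E {w : ℂ | 1 < w.re}) (hG : AnalyticAt ℂ G 1)
    (hEG : ∀ᶠ w in 𝓝 (1 : ℂ), 1 < w.re → E w = (w - 1) ^ r * Complex.exp (G w)) :
    Continues g R F (k + r) := by
  have hopen : IsOpen {w : ℂ | 1 < w.re} := isOpen_lt continuous_const Complex.continuous_re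
  set E' : ℂ → ℂ := fun w => if 1 < w.re then E w else (w - 1) ^ r * Complex.exp (G w) with hE'
  have hE1 : ∀ᶠ w in 𝓝 (1 : ℂ), E' w = (w - 1) ^ r * Complex.exp (G w) := by
    filter_upwards [hEG] with w hw
    rw [hE']
    simp only
    split_ifs with h
    · exact hw h
    · rfl
  obtain ⟨hm1, ho1⟩ := order_E hG r hE1
  have hm : ∀ x : ℝ, 1 ≤ x → MeromorphicAt E' (x : ℂ) := by
    intro x hx
    rcases hx.eq_or_lt with h | h
    · rw [← h, Complex.ofReal_one]
      exact hm1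
    · have h4 : {w : ℂ | 1 < w.re} ∈ 𝓝 (x : ℂ) := hopen.mem_nhds (by
        rw [Set.mem_ofPred_eq, Complex.ofReal_re]
        exact h)
      have h5 : AnalyticAt ℂ E (x : ℂ) := hE.analyticAt h4
      refine h5.meromorphicAt.congr ?_
      filter_upwards [mem_nhdsWithin_of_mem_nhds h4] with w hw
      rw [hE']
      exact (if_pos hw).symm
  have hprod : ∀ x : ℝ, 1 ≤ x → MeromorphicAt (Λ₀ * E') (x : ℂ) := fun x hx =>
    (h2 x hx).mul (hm x hx)
  refine ⟨fun y => eg g.eqFibre g.r (md g F y.1), (Λ₀ * E') ∘ (· - (g.m : ℂ)), isLocal_eg hg,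
    fun s hs => ?_, fun x hx => ?_, ?_⟩
  · have h4 := hasProd_Ph (F := F) hg s hs
    have h5 : 3 / 2 < (s - (g.m : ℂ)).re := by
      rw [Complex.sub_re, Complex.natCast_re]
      linarith
    have h6 := h1 _ h5
    rw [add_sub_cancel] at h6
    rw [h6] at h4
    have h7 : E' (s - (g.m : ℂ)) = E (s - (g.m : ℂ)) := if_pos (by linarith)
    rw [Function.comp_apply, Pi.mul_apply, h7]
    exact h4
  · rw [meromorphicAt_comp_sub_const_iff_meromorphicAt]
    have h4 := hprod (x - g.m) (by linarith)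
    rwa [Complex.ofReal_sub, Complex.ofReal_natCast] at h4
  · rw [meromorphicOrderAt_comp_sub_const_eq_meromorphicOrderAt]
    have e : (g.m : ℂ) + 1 - (g.m : ℂ) = 1 := by ring
    have h4 := h2 1 le_rfl
    rw [Complex.ofReal_one] at h4
    rw [e, meromorphicOrderAt_mul h4 hm1, h3, ho1]
    rfl

/-- the function of the logarithm -/
theorem of_continues (hf : IsSmoothFamily f R C) {k : ℤ} (h : Continues f R F k) :
    ∃ Λ₀ : ℂ → ℂ, (∀ w : ℂ, 3 / 2 < w.re → Ph f R F ((f.m : ℂ) + w) = Λ₀ w) ∧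
      (∀ x : ℝ, 1 ≤ x → MeromorphicAt Λ₀ (x : ℂ)) ∧ meromorphicOrderAt Λ₀ 1 = k := by
  obtain ⟨β, Λ, h1, h2, h3, h4⟩ := h
  obtain rfl := isLocal_unique h1 (isLocal_eg hf)
  refine ⟨Λ ∘ (· + (f.m : ℂ)), fun w hw => ?_, fun x hx => ?_, ?_⟩
  · have hs : (f.m : ℝ) + 3 / 2 < ((f.m : ℂ) + w).re := by
      rw [Complex.add_re, Complex.natCast_re]
      linarith
    have h5 := (hasProd_Ph (F := F) hf _ hs).unique (h2 _ hs)
    rw [h5, Function.comp_apply, add_comm]
  · rw [meromorphicAt_comp_add_const_iff_meromorphicAt]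
    have h5 := h3 (x + f.m) (by linarith)
    rwa [Complex.ofReal_add, Complex.ofReal_natCast] at h5
  · rw [meromorphicOrderAt_comp_add_const_eq_meromorphicOrderAt, add_comm]
    exact h4

variable (f g R F) in
/-- the difference of the coefficients -/
noncomputable def dif (c : Nat.Primes × ℕ) : ℂ :=
  cf g R F c / ((Qc c : ℕ) : ℂ) ^ g.m - cf f R F c / ((Qc c : ℕ) : ℂ) ^ f.m

theorem wt_div {k : Type} [Field k] [Finite k] {c : Nat.Primes × ℕ} (hk : Nat.card k = Qc c)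
    (hg : IsSmoothFamily g R C) :
    cf g R F c / ((Qc c : ℕ) : ℂ) ^ g.m =
      ((sm R F (fun _ _ φ => av g φ) k : ℝ) : ℂ) / ((c.2 + 1 : ℕ) : ℂ) := by
  classical
  have hfin := hom_int F k
  have hf1 := hfin.1
  let _ := Fintype.ofFinite (𝓞 F →+* k)
  rw [cf_eq hg hk]
  have hq : ((Qc c : ℕ) : ℝ) ≠ 0 := by exact_mod_cast (Qc_pos c).ne'
  have h1 : (∑ᶠ φ : 𝓞 F →+* k, wt g R F φ) =
      ((Qc c : ℕ) : ℝ) ^ g.m * sm R F (fun _ _ φ => av g φ) k := by
    unfold sm
    rw [finsum_eq_sum_of_fintype, finsum_eq_sum_of_fintype, Finset.mul_sum]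
    refine Finset.sum_congr rfl fun φ _ => ?_
    unfold wt
    split_ifs
    · rw [hk]
    · rw [mul_zero]
  rw [h1]
  have hq' : ((Qc c : ℕ) : ℂ) ^ g.m ≠ 0 := pow_ne_zero _ (by exact_mod_cast (Qc_pos c).ne')
  push_cast
  field_simp

/-- the difference in terms of the values -/
theorem dif_eq (hf : IsSmoothFamily f R C) (hg : IsSmoothFamily g R C) {k : Type} [Field k]
    [Finite k] {c : Nat.Primes × ℕ} (hk : Nat.card k = Qc c) :
    dif f g R F c = ((-sm R F (fun _ _ φ => av f φ - av g φ) k : ℝ) : ℂ) /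
      ((c.2 + 1 : ℕ) : ℂ) := by
  classical
  have hfin := hom_int F k
  have hf1 := hfin.1
  let _ := Fintype.ofFinite (𝓞 F →+* k)
  unfold dif
  rw [wt_div hk hf, wt_div hk hg, ← sub_div, ← Complex.ofReal_sub]
  congr 2
  unfold sm
  rw [finsum_eq_sum_of_fintype, finsum_eq_sum_of_fintype, finsum_eq_sum_of_fintype,
    ← Finset.sum_sub_distrib, ← Finset.sum_neg_distrib]
  refine Finset.sum_congr rfl fun φ _ => ?_
  split_ifs
  · ring
  · ring

/-- the quotient of the Euler products -/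
theorem Ph_dif (hf : IsSmoothFamily f R C) (hg : IsSmoothFamily g R C) {B : ℝ}
    (hd : ∀ c, ‖dif f g R F c‖ ≤ B) (w : ℂ) (hw : 3 / 2 < w.re) :
    Ph g R F ((g.m : ℂ) + w) = Ph f R F ((f.m : ℂ) + w) * Complex.exp (SD (dif f g R F) w) := by
  have hs1 : (f.m : ℝ) + 3 / 2 < ((f.m : ℂ) + w).re := by
    rw [Complex.add_re, Complex.natCast_re]
    linarith
  unfold Ph SD
  rw [← Complex.exp_add, ← (summable_cf (F := F) hf _ hs1).tsum_add
    (summable_bdd hd (by linarith))]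
  congr 1
  refine tsum_congr fun c => ?_
  have hq : ((Qc c : ℕ) : ℂ) ≠ 0 := by exact_mod_cast (Qc_pos c).ne'
  have h1 : ∀ n : ℕ, ((Qc c : ℕ) : ℂ) ^ (-((n : ℂ) + w)) =
      (((Qc c : ℕ) : ℂ) ^ n)⁻¹ * ((Qc c : ℕ) : ℂ) ^ (-w) := by
    intro n
    rw [neg_add, Complex.cpow_add _ _ hq, Complex.cpow_neg, Complex.cpow_natCast]
  rw [h1, h1]
  unfold dif
  ring

end

section
variable {K : Type} [Field K] [NumberField K] {f g : Fibration K}
  {R : Finset (HeightOneSpectrum (𝓞 K))} {C : ℝ} {W : Type} [AddCommGroup W] [Module ℚ W]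
  [FiniteDimensional ℚ W] {ρ : Representation ℚ (GK K) W}

/-- the analytic behaviour of a series of values near `1` -/
theorem near_of {P : LocalValue K} {δ : ∀ (κ : Type) [Field κ], (𝓞 K →+* κ) → ℝ}
    (hP : IsPartOf P (Module.finrank ℚ W) ρ)
    (hval : ∀ (κ : Type) [Field κ] [Finite κ] (φ : 𝓞 K →+* κ), Off R φ → ∀ z : ℝ, P κ φ z →
      z = δ κ φ)
    (F : IntermediateField K (AlgebraicClosure K)) [NumberField F] {d : Nat.Primes × ℕ → ℂ}
    {B : ℝ} (hd : ∀ c, ‖d c‖ ≤ B)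
    (hde : ∀ (c : Nat.Primes × ℕ) (k : Type) [Field k] [Finite k], Nat.card k = Qc c →
      d c = ((-sm R F δ k : ℝ) : ℂ) / ((c.2 + 1 : ℕ) : ℂ)) :
    ∃ G : ℂ → ℂ, AnalyticAt ℂ G 1 ∧ ∀ᶠ w in 𝓝 (1 : ℂ), 1 < w.re →
      Complex.exp (SD d w) = (w - 1) ^ (rank ρ F : ℤ) * Complex.exp (G w) := by
  classical
  obtain ⟨κ, hκ, L, hL, a, D, hsum, hkey⟩ := key hP hval F
  refine near_one (L := fun j => L j) (a := a) hd (D := D) ?_ (r := (rank ρ F : ℤ)) (by
    rw [hsum]
    push_cast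
    rfl)
  filter_upwards [hkey] with p hp
  have : Fact (p : ℕ).Prime := ⟨p.2⟩
  have hk : Nat.card (ZMod (p : ℕ)) = Qc (p, 0) := by
    rw [Nat.card_zmod, Qc_zero]
  have h1 := hde (p, 0) (ZMod (p : ℕ)) hk
  rw [h1]
  simp only [zero_add, Nat.cast_one, div_one]
  exact hp

/-- **Invariance.** -/
theorem invariance (hf : IsSmoothFamily f R C) (hg : IsSmoothFamily g R C)
    (hb : IsBounded (differenceValue f g) R C)
    (hP : IsPartOf (differenceValue f g) (Module.finrank ℚ W) ρ)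
    (F : IntermediateField K (AlgebraicClosure K)) [NumberField F] (k : ℤ) :
    Continues g R F (k + rank ρ F) ↔ Continues f R F k := by
  classical
  set δ : ∀ (κ : Type) [Field κ], (𝓞 K →+* κ) → ℝ := fun _ _ φ => av f φ - av g φ with hδ
  have hval : ∀ (κ : Type) [Field κ] [Finite κ] (φ : 𝓞 K →+* κ), Off R φ → ∀ z : ℝ,
      differenceValue f g κ φ z → z = δ κ φ := by
    intro κ _ _ φ hφ z hz
    obtain ⟨A, A', hA, hA', rfl⟩ := hz
    rw [av_eq hf hφ hA, av_eq hg hφ hA']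
  have hδb : ∀ (κ : Type) [Field κ] [Finite κ] (φ : 𝓞 K →+* κ), Off R φ → |δ κ φ| ≤ C := by
    intro κ _ _ φ hφ
    exact hb κ φ hφ _ ⟨_, _, av_isAverage hf hφ, av_isAverage hg hφ, rfl⟩
  have hde : ∀ (c : Nat.Primes × ℕ) (k : Type) [Field k] [Finite k], Nat.card k = Qc c →
      dif f g R F c = ((-sm R F δ k : ℝ) : ℂ) / ((c.2 + 1 : ℕ) : ℂ) :=
    fun c k _ _ hk => dif_eq hf hg hk
  have hdb : ∀ c, ‖dif f g R F c‖ ≤ Module.finrank ℤ (𝓞 F) * |C| := by
    intro c
    rw [hde c (Fc c) (card_Fc c), norm_div, Complex.norm_real, Complex.norm_natCast,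
      Real.norm_eq_abs, abs_neg]
    have h2 : (1 : ℝ) ≤ ((c.2 + 1 : ℕ) : ℝ) := by exact_mod_cast Nat.succ_pos _
    exact (div_le_self (abs_nonneg _) h2).trans (abs_sm hδb (Fc c))
  obtain ⟨G, hG, hGw⟩ := near_of hP hval F hdb hde
  have hrel := Ph_dif (F := F) hf hg hdb
  have hdiff := SD_diff hdb
  constructor
  · intro h
    obtain ⟨Λ₀, h1, h2, h3⟩ := of_continues hg h
    have h4 : Continues f R F ((k + rank ρ F) + -(rank ρ F : ℤ)) := by
      refine glue hf (Λ₀ := Λ₀) (E := fun w => Complex.exp (-SD (dif f g R F) w))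
        (G := fun w => -G w) (fun w hw => ?_) h2 h3 hdiff.neg.cexp hG.neg ?_
      · rw [← h1 w hw, hrel w hw, mul_assoc, ← Complex.exp_add, add_neg_cancel, Complex.exp_zero,
          mul_one]
      · filter_upwards [hGw] with w hw hw1
        rw [Complex.exp_neg, hw hw1, mul_inv, Complex.exp_neg, zpow_neg]
    rwa [add_neg_cancel_right] at h4
  · intro h
    obtain ⟨Λ₀, h1, h2, h3⟩ := of_continues hf h
    refine glue hg (Λ₀ := Λ₀) (E := fun w => Complex.exp (SD (dif f g R F) w))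
      (G := G) (fun w hw => ?_) h2 h3 hdiff.cexp hG hGw
    rw [← h1 w hw, hrel w hw]

/-- **The full statement.** -/
theorem full (hg : IsSmoothFamily g R C) (hb : IsBounded (averageValue g) R C)
    (hP : IsPartOf (averageValue g) (Module.finrank ℚ W) ρ)
    (F : IntermediateField K (AlgebraicClosure K)) [NumberField F] :
    Continues g R F (rank ρ F) := by
  classical
  set δ : ∀ (κ : Type) [Field κ], (𝓞 K →+* κ) → ℝ := fun _ _ φ => -av g φ with hδ
  have hval : ∀ (κ : Type) [Field κ] [Finite κ] (φ : 𝓞 K →+* κ), Off R φ → ∀ z : ℝ,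
      averageValue g κ φ z → z = δ κ φ := by
    intro κ _ _ φ hφ z hz
    obtain ⟨A, hA, rfl⟩ := hz
    rw [av_eq hg hφ hA]
  have hδb : ∀ (κ : Type) [Field κ] [Finite κ] (φ : 𝓞 K →+* κ), Off R φ → |δ κ φ| ≤ C := by
    intro κ _ _ φ hφ
    exact hb κ φ hφ _ ⟨_, av_isAverage hg hφ, rfl⟩
  set d : Nat.Primes × ℕ → ℂ := fun c => cf g R F c / ((Qc c : ℕ) : ℂ) ^ g.m with hd
  have hde : ∀ (c : Nat.Primes × ℕ) (k : Type) [Field k] [Finite k], Nat.card k = Qc c →
      d c = ((-sm R F δ k : ℝ) : ℂ) / ((c.2 + 1 : ℕ) : ℂ) := by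
    intro c k _ _ hk
    rw [hd]
    simp only
    rw [wt_div hk hg]
    congr 2
    have hfin := hom_int F k
    have hf1 := hfin.1
    let _ := Fintype.ofFinite (𝓞 F →+* k)
    unfold sm
    rw [finsum_eq_sum_of_fintype, finsum_eq_sum_of_fintype, ← Finset.sum_neg_distrib]
    refine Finset.sum_congr rfl fun φ _ => ?_
    rw [hδ]
    split_ifs
    · ring
    · ring
  have hdb : ∀ c, ‖d c‖ ≤ Module.finrank ℤ (𝓞 F) * |C| := by
    intro c
    rw [hde c (Fc c) (card_Fc c), norm_div, Complex.norm_real, Complex.norm_natCast,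
      Real.norm_eq_abs, abs_neg]
    have h2 : (1 : ℝ) ≤ ((c.2 + 1 : ℕ) : ℝ) := by exact_mod_cast Nat.succ_pos _
    exact (div_le_self (abs_nonneg _) h2).trans (abs_sm hδb (Fc c))
  obtain ⟨G, hG, hGw⟩ := near_of hP hval F hdb hde
  have h4 : Continues g R F (0 + (rank ρ F : ℤ)) := by
    refine glue hg (Λ₀ := fun _ => 1) (E := fun w => Complex.exp (SD d w)) (G := G)
      (fun w hw => ?_) (fun x _ => MeromorphicAt.const 1 _) ?_ (SD_diff hdb).cexp hG hGw
    · rw [one_mul]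
      unfold Ph SD
      congr 1
      refine tsum_congr fun c => ?_
      have hq : ((Qc c : ℕ) : ℂ) ≠ 0 := by exact_mod_cast (Qc_pos c).ne'
      rw [neg_add, Complex.cpow_add _ _ hq, Complex.cpow_neg, Complex.cpow_natCast]
      rw [hd]
      ring
    · have h5 : MeromorphicAt (fun _ : ℂ => (1 : ℂ)) 1 := MeromorphicAt.const 1 _
      exact (meromorphicOrderAt_eq_int_iff (n := 0) h5).2
        ⟨fun _ => 1, analyticAt_const, one_ne_zero, Filter.Eventually.of_forall fun z => by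
          simp⟩
  rwa [zero_add] at h4

end

end Pool.Agent.Y707.RX
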