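import Pool.Agent.Y707.RX.Defs
import Pool.Agent.Y707.PH.Phi

/-! The coefficients of the logarithm of the Euler product of a smooth family. -/

set_option autoImplicit false

namespace Pool.Agent.Y707.RX

open NumberField IsDedekindDomain Filter Topology
open Pool.Agent.H126R3 (Qc Qc_pos)
open Pool.Agent.W385.CP
open Pool.Agent.W353.FB (cone IsTrace Fibration)
open Pool.Agent.Y707.PH (IsEigen Pts IsLocal averageValue eg eg_spec eg_eq Off av Bf mp Ys md tr
  comp_mp mem_Ys card_eH wt Few hasProd_LY hasSum_AcY cf Ph exp_log isLocal_unique)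

section
variable {K : Type} [Field K] [NumberField K] {f : Fibration K}
  {R : Finset (HeightOneSpectrum (𝓞 K))} {C : ℝ}

theorem av_isAverage (hf : IsSmoothFamily f R C) {κ : Type} [Field κ] [Finite κ] {φ : 𝓞 K →+* κ}
    (hφ : Off R φ) : f.IsAverage 1 φ (av f φ) := by
  refine ⟨fun t => (eg f.eqFibre f.r (MvPolynomial.eval₂Hom φ t)).sum.re, fun t ht => ?_, rfl⟩
  obtain ⟨γ, h1, -⟩ := (hf κ φ hφ).2 t ht
  have h2 := eg_spec ⟨γ, h1⟩
  have h3 := f.one_le
  exact h2.isTrace (h2.sum_re (by omega))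

theorem av_eq (hf : IsSmoothFamily f R C) {κ : Type} [Field κ] [Finite κ] {φ : 𝓞 K →+* κ}
    (hφ : Off R φ) {A : ℝ} (hA : f.IsAverage 1 φ A) : A = av f φ := by
  have h3 := f.one_le
  exact Pool.Agent.W353.FB.average_unique f (by omega) hA (av_isAverage hf hφ)

variable {F : Type} [Field F] [NumberField F] [Algebra K F]

theorem eigen_md (hf : IsSmoothFamily f R C) {y : MaximalSpectrum (Bf f F)} (hy : y ∈ Ys f R F) :
    IsEigen f.eqFibre f.r 1 (md f F y) (eg f.eqFibre f.r (md f F y)) ∧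
      ((eg f.eqFibre f.r (md f F y)).card : ℝ) ≤ C := by
  have h0 := f.one_le
  have h1 : ptH (Ideal.Quotient.mk y.asIdeal : Bf f F →+* Rs y) = y := by
    apply MaximalSpectrum.ext
    ext x
    rw [mem_ptH, Ideal.Quotient.eq_zero_iff_mem]
  have h2 : ptH (Ideal.Quotient.mk y.asIdeal : Bf f F →+* Rs y) ∈ Ys f R F := by rwa [h1]
  obtain ⟨h3, h4⟩ := (mem_Ys _).1 h2
  obtain ⟨γ, h5, h6⟩ := (hf _ _ h4).2 _ h3
  have h7 : IsEigen f.eqFibre f.r 1 (md f F y) γ := by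
    unfold md
    rw [comp_mp]
    exact h5
  rw [eg_eq h0 h7]
  exact ⟨h7, h6⟩

/-- the traces at a homomorphism -/
theorem tr_ptH (hf : IsSmoothFamily f R C) {k : Type} [Field k] [Finite k] {c : Nat.Primes × ℕ}
    (hk : Nat.card k = Qc c) (ψ : Bf f F →+* k) (h : ptH ψ ∈ Ys f R F) :
    tr f R F (ptH ψ) (eH c (ptH ψ)) = (eg f.eqFibre f.r (ψ.comp (mp f F))).sum := by
  have h0 := f.one_le
  unfold tr
  rw [if_pos h]
  have h1 := (eigen_md hf h).1.ext (fibH (ptH ψ) ⟨ψ, rfl⟩) (card_eH hk ψ)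
  have h2 : (fibH (ptH ψ) ⟨ψ, rfl⟩).comp (md f F (ptH ψ)) = ψ.comp (mp f F) :=
    RingHom.ext fun x => rfl
  rw [h2] at h1
  rw [eg_eq h0 h1]

theorem sum_tr (hf : IsSmoothFamily f R C) {k : Type} [Field k] [Finite k] {c : Nat.Primes × ℕ}
    (hk : Nat.card k = Qc c) :
    ∑ᶠ ψ : Bf f F →+* k, tr f R F (ptH ψ) (eH c (ptH ψ)) =
      ((∑ᶠ φ : 𝓞 F →+* k, wt f R F φ : ℝ) : ℂ) := by
  classical
  have h0 := f.one_le
  have hfin := (hom_int F k).1
  let _ := Fintype.ofFinite (𝓞 F →+* k)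
  let _ := Fintype.ofFinite k
  rw [← finsum_comp_equiv (homE F (Fin f.l) k).symm]
  rw [finsum_eq_sum_of_fintype, finsum_eq_sum_of_fintype, Fintype.sum_prod_type,
    Complex.ofReal_sum]
  refine Finset.sum_congr rfl fun φ _ => ?_
  set φ' := φ.comp (algebraMap (𝓞 K) (𝓞 F)) with hφ'
  have hC : ∀ t : Fin f.l → k, (((homE F (Fin f.l) k).symm (φ, t)).comp MvPolynomial.C).comp
      (algebraMap (𝓞 K) (𝓞 F)) = φ' := by
    intro t
    have : ((homE F (Fin f.l) k).symm (φ, t)).comp MvPolynomial.C = φ :=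
      congrArg Prod.fst ((homE F (Fin f.l) k).apply_symm_apply (φ, t))
    rw [this]
  have hX : ∀ t : Fin f.l → k, (fun i => ((homE F (Fin f.l) k).symm (φ, t)) (MvPolynomial.X i)) =
      t := by
    intro t
    exact congrArg Prod.snd ((homE F (Fin f.l) k).apply_symm_apply (φ, t))
  have hmem : ∀ t : Fin f.l → k, ptH ((homE F (Fin f.l) k).symm (φ, t)) ∈ Ys f R F ↔
      t ∈ f.points φ' ∧ Off R φ' := by
    intro t
    rw [mem_Ys, hC, hX]
  have htr : ∀ t : Fin f.l → k, tr f R F (ptH ((homE F (Fin f.l) k).symm (φ, t)))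
      (eH c (ptH ((homE F (Fin f.l) k).symm (φ, t)))) =
      if t ∈ f.points φ' ∧ Off R φ' then
        (((eg f.eqFibre f.r (MvPolynomial.eval₂Hom φ' t)).sum.re : ℝ) : ℂ) else 0 := by
    intro t
    by_cases h : t ∈ f.points φ' ∧ Off R φ'
    · rw [if_pos h, tr_ptH hf hk _ ((hmem t).2 h), comp_mp, hC, hX]
      obtain ⟨γ, h1, -⟩ := (hf k φ' h.2).2 t h.1
      exact (eg_spec ⟨γ, h1⟩).sum_re (by omega)
    · rw [if_neg h]
      unfold tr
      rw [if_neg fun h' => h ((hmem t).1 h')]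
  rw [Finset.sum_congr rfl fun t _ => htr t]
  unfold wt
  by_cases hoff : Off R φ'
  · rw [if_pos hoff]
    have hq : (Nat.card k : ℝ) ^ f.m ≠ 0 := by
      have : Nat.card k ≠ 0 := Nat.card_pos.ne'
      positivity
    unfold av
    rw [← mul_assoc, mul_inv_cancel₀ hq, one_mul]
    have h1 : (∑ᶠ t ∈ f.points φ', (eg f.eqFibre f.r (MvPolynomial.eval₂Hom φ' t)).sum.re) =
        ∑ t : Fin f.l → k, if t ∈ f.points φ' then
          (eg f.eqFibre f.r (MvPolynomial.eval₂Hom φ' t)).sum.re else 0 := by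
      rw [← finsum_eq_sum_of_fintype]
      refine finsum_congr fun t => ?_
      by_cases h : t ∈ f.points φ'
      · rw [if_pos h]
        simp [h]
      · rw [if_neg h]
        simp [h]
    rw [h1, Complex.ofReal_sum]
    refine Finset.sum_congr rfl fun t _ => ?_
    by_cases h : t ∈ f.points φ'
    · rw [if_pos h, if_pos ⟨h, hoff⟩]
    · rw [if_neg h, if_neg fun h' => h h'.1, Complex.ofReal_zero]
  · rw [if_neg hoff, Complex.ofReal_zero]
    refine Finset.sum_eq_zero fun t _ => ?_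
    rw [if_neg fun h' => hoff h'.2]

/-- few points -/
theorem few (hf : IsSmoothFamily f R C) :
    Few (Ys f R F) f.m (Module.finrank ℤ (𝓞 F) * |C|) := by
  classical
  intro c
  have hfin := hom_int F (Fc c)
  have hf1 := hfin.1
  let _ := Fintype.ofFinite (𝓞 F →+* Fc c)
  let _ := Fintype.ofFinite (Fc c)
  have hBfin := (homBd_poly F (Fin f.l)).fin (Fc c)
  -- the points over a homomorphism
  let e : {ψ : Bf f F →+* Fc c // ptH ψ ∈ Ys f R F} →
      Σ φ : 𝓞 F →+* Fc c, {t : Fin f.l → Fc c //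
        t ∈ f.points (φ.comp (algebraMap (𝓞 K) (𝓞 F))) ∧ Off R (φ.comp (algebraMap (𝓞 K) (𝓞 F)))} :=
    fun ψ => ⟨ψ.1.comp MvPolynomial.C, fun i => ψ.1 (MvPolynomial.X i), (mem_Ys ψ.1).1 ψ.2⟩
  have he : Function.Injective e := by
    intro ψ ψ' h
    apply Subtype.ext
    apply (homE F (Fin f.l) (Fc c)).injective
    have h1 : ψ.1.comp MvPolynomial.C = ψ'.1.comp MvPolynomial.C := congrArg Sigma.fst h
    refine Prod.ext h1 ?_
    change (fun i => ψ.1 (MvPolynomial.X i)) = (fun i => ψ'.1 (MvPolynomial.X i))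
    have h2 : ∀ z z' : (Σ φ : 𝓞 F →+* Fc c, {t : Fin f.l → Fc c //
        t ∈ f.points (φ.comp (algebraMap (𝓞 K) (𝓞 F))) ∧
          Off R (φ.comp (algebraMap (𝓞 K) (𝓞 F)))}), z = z' → z.2.1 = z'.2.1 := by
      rintro z z' rfl
      rfl
    exact h2 _ _ h
  have h1 := Nat.card_le_card_of_injective e he
  have h2 : (Nat.card (Σ φ : 𝓞 F →+* Fc c, {t : Fin f.l → Fc c //
        t ∈ f.points (φ.comp (algebraMap (𝓞 K) (𝓞 F))) ∧
          Off R (φ.comp (algebraMap (𝓞 K) (𝓞 F)))}) : ℝ) ≤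
      Module.finrank ℤ (𝓞 F) * |C| * (Qc c : ℝ) ^ f.m := by
    rw [Nat.card_sigma]
    push_cast
    have h3 : ∀ φ ∈ (Finset.univ : Finset (𝓞 F →+* Fc c)), (Nat.card {t : Fin f.l → Fc c //
        t ∈ f.points (φ.comp (algebraMap (𝓞 K) (𝓞 F))) ∧
          Off R (φ.comp (algebraMap (𝓞 K) (𝓞 F)))} : ℝ) ≤ |C| * (Qc c : ℝ) ^ f.m := by
      intro φ _
      by_cases h : Off R (φ.comp (algebraMap (𝓞 K) (𝓞 F)))
      · have h4 := (hf (Fc c) _ h).1
        rw [card_Fc] at h4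
        refine le_trans ?_ (h4.trans (mul_le_mul_of_nonneg_right (le_abs_self C) (by positivity)))
        have h5 : Nat.card {t : Fin f.l → Fc c //
            t ∈ f.points (φ.comp (algebraMap (𝓞 K) (𝓞 F))) ∧
              Off R (φ.comp (algebraMap (𝓞 K) (𝓞 F)))} ≤
            Nat.card (f.points (φ.comp (algebraMap (𝓞 K) (𝓞 F)))) :=
          Nat.card_le_card_of_injective (fun t => ⟨t.1, t.2.1⟩) fun t t' h => by
            have h6 : t.1 = t'.1 := congrArg (fun z : (f.points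
              (φ.comp (algebraMap (𝓞 K) (𝓞 F)))) => z.1) h
            exact Subtype.ext h6
        exact_mod_cast h5
      · have h5 : IsEmpty {t : Fin f.l → Fc c //
            t ∈ f.points (φ.comp (algebraMap (𝓞 K) (𝓞 F))) ∧
              Off R (φ.comp (algebraMap (𝓞 K) (𝓞 F)))} := ⟨fun t => h t.2.2⟩
        rw [Nat.card_of_isEmpty]
        push_cast
        positivity
    refine (Finset.sum_le_card_nsmul _ _ _ h3).trans ?_
    rw [nsmul_eq_mul, Finset.card_univ, ← Nat.card_eq_fintype_card, mul_assoc]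
    refine mul_le_mul_of_nonneg_right ?_ (by positivity)
    exact_mod_cast hfin.2
  have h3 : (Nat.card {ψ : Bf f F →+* Fc c // ptH ψ ∈ Ys f R F} : ℝ) ≤
      (Nat.card (Σ φ : 𝓞 F →+* Fc c, {t : Fin f.l → Fc c //
        t ∈ f.points (φ.comp (algebraMap (𝓞 K) (𝓞 F))) ∧
          Off R (φ.comp (algebraMap (𝓞 K) (𝓞 F)))}) : ℝ) := by exact_mod_cast h1
  exact h3.trans h2

/-- the traces are small -/
theorem tr_norm (hf : IsSmoothFamily f R C) (y : MaximalSpectrum (Bf f F)) (m : ℕ) :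
    ‖tr f R F y (m + 1)‖ ≤ |C| * (((qn y : ℕ) : ℝ) ^ (m + 1)) ^ (1 / 2 : ℝ) := by
  unfold tr
  split_ifs with h
  · obtain ⟨h1, h2⟩ := eigen_md hf h
    have hq : (0 : ℝ) ≤ ((qn y : ℕ) : ℝ) := Nat.cast_nonneg _
    have h3 : ∀ z ∈ eg f.eqFibre f.r (md f F y), ‖z ^ (m + 1)‖ =
        (((qn y : ℕ) : ℝ) ^ (m + 1)) ^ (1 / 2 : ℝ) := by
      intro z hz
      rw [norm_pow, h1.norm hz]
      change (((qn y : ℕ) : ℝ) ^ (((1 : ℕ) : ℝ) / 2)) ^ (m + 1) = _
      rw [← Real.rpow_natCast, ← Real.rpow_natCast, ← Real.rpow_mul hq, ← Real.rpow_mul hq]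
      congr 1
      push_cast
      ring
    refine (norm_multiset_sum_le _).trans ?_
    rw [Multiset.map_map]
    have h4 : (Multiset.map (norm ∘ fun z => z ^ (m + 1)) (eg f.eqFibre f.r (md f F y))).sum ≤
        (Multiset.map (norm ∘ fun z => z ^ (m + 1)) (eg f.eqFibre f.r (md f F y))).card •
          (((qn y : ℕ) : ℝ) ^ (m + 1)) ^ (1 / 2 : ℝ) := by
      refine Multiset.sum_le_card_nsmul _ _ fun x hx => ?_
      obtain ⟨z, hz, rfl⟩ := Multiset.mem_map.1 hx
      exact (h3 z hz).le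
    refine h4.trans ?_
    rw [Multiset.card_map, nsmul_eq_mul]
    exact mul_le_mul_of_nonneg_right (h2.trans (le_abs_self C)) (by positivity)
  · rw [norm_zero]
    positivity

theorem cf_eq (hf : IsSmoothFamily f R C) {k : Type} [Field k] [Finite k] {c : Nat.Primes × ℕ}
    (hk : Nat.card k = Qc c) :
    cf f R F c = ((∑ᶠ φ : 𝓞 F →+* k, wt f R F φ : ℝ) : ℂ) / ((c.2 + 1 : ℕ) : ℂ) := by
  unfold cf
  rw [Ac_eq (Fintype.card (Fin f.l)) (Module.finrank ℤ (𝓞 F)) (tr f R F) c hk, sum_tr hf hk]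

theorem isLocal_eg (hf : IsSmoothFamily f R C) :
    IsLocal f R F fun y : Pts f R F => eg f.eqFibre f.r (md f F y.1) := by
  intro y κ _ ψ hψ hker
  have hy : y.1 ∈ Ys f R F := y.2
  let θ : Rs y.1 →+* κ := Ideal.Quotient.lift y.1.asIdeal ψ fun x hx => by
    rw [← hker] at hx
    exact hx
  have h1 : θ.comp (md f F y.1) = ψ.comp (mp f F) := RingHom.ext fun x => rfl
  have h2 : Function.Bijective θ := ⟨θ.injective, fun x => by
    obtain ⟨b, rfl⟩ := hψ x
    exact ⟨Ideal.Quotient.mk y.1.asIdeal b, rfl⟩⟩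
  have h3 : Nat.card κ = Nat.card (Rs y.1) := (Nat.card_eq_of_bijective θ h2).symm
  have h4 := (eigen_md hf hy).1.iso θ h3
  rw [h1] at h4
  exact h4

theorem hasProd_Ph (hf : IsSmoothFamily f R C) (s : ℂ) (hs : (f.m : ℝ) + 3 / 2 < s.re) :
    HasProd (fun y : Pts f R F => ((eg f.eqFibre f.r (md f F y.1)).map fun z =>
      (1 - z * ((Nat.card (MvPolynomial (Fin f.l) (𝓞 F) ⧸ y.1.asIdeal) : ℕ) : ℂ) ^ (-s))⁻¹).prod)
      (Ph f R F s) := by
  have h1 := hasProd_LY (B := Bf f F) (Fintype.card (Fin f.l)) (Module.finrank ℤ (𝓞 F))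
    (Y := Ys f R F) (n := f.m) (C1 := Module.finrank ℤ (𝓞 F) * |C|) (tr := tr f R F)
    (w := 1 / 2) (Ct := |C|) (abs_nonneg C) (tr_norm hf) (fun y hy m => by
      unfold tr
      rw [if_neg hy]) (few hf) s (by linarith)
  refine Eq.mp (congrArg (fun g => HasProd g _) (funext fun y => ?_)) h1
  have hq1 : (1 : ℝ) < ((qn y.1 : ℕ) : ℝ) := by
    have := two_le_qn y.1
    exact_mod_cast (by omega : 1 < qn y.1)
  have h2 : ∀ z ∈ eg f.eqFibre f.r (md f F y.1), ‖z * ((qn y.1 : ℕ) : ℂ) ^ (-s)‖ < 1 := by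
    intro z hz
    rw [norm_mul, Complex.norm_natCast_cpow_of_pos (by have := two_le_qn y.1; omega),
      (eigen_md hf y.2).1.norm hz]
    change ((qn y.1 : ℕ) : ℝ) ^ (((1 : ℕ) : ℝ) / 2) * _ < 1
    rw [← Real.rpow_add (by linarith), Complex.neg_re]
    refine Real.rpow_lt_one_of_one_lt_of_neg hq1 ?_
    have : (0 : ℝ) ≤ f.m := Nat.cast_nonneg _
    push_cast
    linarith
  have h3 := exp_log _ _ h2
  change Complex.exp _ = (Multiset.map (fun z => (1 - z * ((qn y.1 : ℕ) : ℂ) ^ (-s))⁻¹)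
    (eg f.eqFibre f.r (md f F y.1))).prod
  rw [← h3]
  congr 1
  refine tsum_congr fun m => ?_
  have hy : y.1 ∈ Ys f R F := y.2
  unfold tr
  rw [if_pos hy, ← Complex.cpow_nat_mul]
  congr 3
  push_cast
  ring

/-- the series of the logarithm converges -/
theorem summable_cf (hf : IsSmoothFamily f R C) (s : ℂ) (hs : (f.m : ℝ) + 3 / 2 < s.re) :
    Summable fun c => cf f R F c * ((Qc c : ℕ) : ℂ) ^ (-s) := by
  have h1 := hasSum_AcY (B := Bf f F) (Fintype.card (Fin f.l)) (Module.finrank ℤ (𝓞 F))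
    (Y := Ys f R F) (n := f.m) (C1 := Module.finrank ℤ (𝓞 F) * |C|) (tr := tr f R F)
    (w := 1 / 2) (Ct := |C|) (abs_nonneg C) (tr_norm hf) (fun y hy m => by
      unfold tr
      rw [if_neg hy]) (few hf) s (by linarith)
  exact h1.summable

end

end Pool.Agent.Y707.RX
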