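import Pool.Agent.Y707.PH.Defs

/-!
# Tate's conjecture over regular extensions of finitely generated fields: definitions

`X → 𝒴` is the generic fibre of a family `f : 𝒳 → 𝒴` over a number field `K`, given as a
`Fibration`; the constant part of `X` may be nonzero.
-/

set_option autoImplicit false

namespace Pool.Agent.Y707.RX

open NumberField IsDedekindDomain Filter Topology
open Pool.Agent.W353.FB
open Pool.Agent.Y707.PH (IsEigen Pts IsLocal averageValue)

section
variable {K : Type} [Field K] [NumberField K]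

/-- Outside the finite set `R` of primes of `K` the family is like a smooth projective family: for
every finite field `κ` with `q` elements and every homomorphism `𝓞_K → κ` whose kernel is not in `R`,
the base has at most `C q^m` points with coordinates in `κ`, and every fibre over such a point has
Frobenius eigenvalues on `H¹`, and at most `C` of them. -/
def IsSmoothFamily (f : Fibration K) (R : Finset (HeightOneSpectrum (𝓞 K))) (C : ℝ) : Prop :=
  ∀ (κ : Type) [Field κ] [Finite κ] (φ : 𝓞 K →+* κ), (∀ v ∈ R, RingHom.ker φ ≠ v.asIdeal) →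
    (Nat.card (f.points φ) : ℝ) ≤ C * (Nat.card κ : ℝ) ^ f.m ∧
    ∀ t ∈ f.points φ, ∃ γ : Multiset ℂ,
      IsEigen f.eqFibre f.r 1 (MvPolynomial.eval₂Hom φ t) γ ∧ (γ.card : ℝ) ≤ C

/-- The values `z = A - A'`, for the fibre averages `A` of `f` and `A'` of `g` of the traces
on `H¹`. -/
def differenceValue (f g : Fibration K) : LocalValue K :=
  fun _ _ φ z => ∃ A A' : ℝ, f.IsAverage 1 φ A ∧ g.IsAverage 1 φ A' ∧ z = A - A'

/-- Outside `R` the values have absolute value at most `C`. -/
def IsBounded (P : LocalValue K) (R : Finset (HeightOneSpectrum (𝓞 K))) (C : ℝ) : Prop :=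
  ∀ (κ : Type) [Field κ] [Finite κ] (φ : 𝓞 K →+* κ), (∀ v ∈ R, RingHom.ker φ ≠ v.asIdeal) →
    ∀ z : ℝ, P κ φ z → |z| ≤ C

/-- The function `Φ₁` of the generic fibre over `F(𝒴)` has a meromorphic continuation to
`s = dim 𝒴 = m + 1`, of order `k` there: the Euler product converges for `Re s > m + 3/2`, to the
function `Λ`, and `Λ` is meromorphic at all points of the real half-line `[m + 1, ∞)`. -/
def Continues (f : Fibration K) (R : Finset (HeightOneSpectrum (𝓞 K))) (F : Type) [Field F]
    [NumberField F] [Algebra K F] (k : ℤ) : Prop :=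
  ∃ (β : Pts f R F → Multiset ℂ) (Λ : ℂ → ℂ), IsLocal f R F β ∧
    (∀ s : ℂ, (f.m : ℝ) + 3 / 2 < s.re →
      HasProd (fun y : Pts f R F => ((β y).map fun z =>
        (1 - z * ((Nat.card (MvPolynomial (Fin f.l) (𝓞 F) ⧸ y.1.asIdeal) : ℕ) : ℂ) ^ (-s))⁻¹).prod)
        (Λ s)) ∧
    (∀ x : ℝ, (f.m : ℝ) + 1 ≤ x → MeromorphicAt Λ (x : ℂ)) ∧
    meromorphicOrderAt Λ ((f.m : ℂ) + 1) = k

end

end Pool.Agent.Y707.RX
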