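import Pool.Agent.Y707.RX.Zet
import Pool.Agent.W385.CP.Gen

/-! Series with bounded coefficients near `1`. -/

set_option autoImplicit false

namespace Pool.Agent.Y707.RX

open NumberField Filter Topology
open Pool.Agent.H126R3 (Qc Qc_pos Qc_rpow summable_Q)
open Pool.Agent.W385.CP (CB diffA Qc_zero term_norm)

/-- the series -/
noncomputable def SD (d : Nat.Primes × ℕ → ℂ) (w : ℂ) : ℂ :=
  ∑' c, d c * ((Qc c : ℕ) : ℂ) ^ (-w)

theorem cb_zero {d : Nat.Primes × ℕ → ℂ} {C : ℝ} (hd : ∀ c, ‖d c‖ ≤ C) : CB d 0 C where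
  c0 := (norm_nonneg _).trans (hd (⟨2, Nat.prime_two⟩, 0))
  h0 p := by
    rw [pow_zero, mul_one]
    exact hd _
  h1 p := by
    rw [mul_zero, pow_zero, mul_one]
    exact hd _
  h2 c := by
    have h0 : 0 ≤ C := (norm_nonneg _).trans (hd c)
    have h1 : (1 : ℝ) ≤ (Qc c : ℝ) := by exact_mod_cast Qc_pos c
    have h2 : (1 : ℝ) ≤ (Qc c : ℝ) ^ (((0 : ℕ) : ℝ) + 1 / 2) :=
      Real.one_le_rpow h1 (by norm_num)
    calc ‖d c‖ ≤ C * 1 := by rw [mul_one]; exact hd c
      _ ≤ _ := mul_le_mul_of_nonneg_left h2 h0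

theorem SD_diff {d : Nat.Primes × ℕ → ℂ} {C : ℝ} (hd : ∀ c, ‖d c‖ ≤ C) :
    DifferentiableOn ℂ (SD d) {w : ℂ | 1 < w.re} := by
  have h := diffA (cb_zero hd)
  simp only [Nat.cast_zero, zero_add] at h
  exact h

theorem summable_bdd {d : Nat.Primes × ℕ → ℂ} {C : ℝ} (hd : ∀ c, ‖d c‖ ≤ C) {w : ℂ}
    (hw : 1 < w.re) : Summable fun c => d c * ((Qc c : ℕ) : ℂ) ^ (-w) := by
  have h1 := (summable_Q w.re (by linarith) 0 (by
    push_cast
    linarith)).mul_left C
  refine Summable.of_norm_bounded h1 fun c => ?_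
  rw [term_norm, if_pos (Nat.zero_le _)]
  exact mul_le_mul_of_nonneg_right (hd c) (by positivity)

section
variable {κ : Type} [Fintype κ] (L : κ → Type) [∀ j, Field (L j)] [∀ j, NumberField (L j)]
  (a : κ → ℝ)

/-- the combination of the numbers of the homomorphisms -/
noncomputable def cmb (p : Nat.Primes) : ℂ :=
  ∑ j, (a j : ℂ) * (Nat.card (𝓞 (L j) →+* ZMod (p : ℕ)) : ℂ)

open Classical in
/-- extended by zero -/
noncomputable def cmbE (c : Nat.Primes × ℕ) : ℂ := if c.2 = 0 then cmb L a c.1 else 0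

/-- a bound -/
noncomputable def cmbC : ℝ := ∑ j, |a j| * Module.finrank ℚ (L j)

theorem norm_cmb (p : Nat.Primes) : ‖cmb L a p‖ ≤ cmbC L a := by
  unfold cmb cmbC
  refine (norm_sum_le _ _).trans (Finset.sum_le_sum fun j _ => ?_)
  rw [norm_mul, Complex.norm_real, Real.norm_eq_abs, Complex.norm_natCast]
  exact mul_le_mul_of_nonneg_left (H332.PIT.hc_cast_le p.2) (abs_nonneg _)

theorem norm_cmbE (c : Nat.Primes × ℕ) : ‖cmbE L a c‖ ≤ cmbC L a := by
  unfold cmbE
  split_ifs
  · exact norm_cmb L a _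
  · rw [norm_zero]
    exact Finset.sum_nonneg fun j _ => mul_nonneg (abs_nonneg _) (Nat.cast_nonneg _)

theorem PS_summable (M : Type) [Field M] [NumberField M] {w : ℂ} (hw : 1 < w.re) :
    Summable fun p : Nat.Primes =>
      (Nat.card (𝓞 M →+* ZMod (p : ℕ)) : ℂ) * ((p : ℕ) : ℂ) ^ (-w) := by
  have h1 := (Nat.Primes.summable_rpow.2 (show -w.re < -1 by linarith)).mul_left
    (Module.finrank ℚ M : ℝ)
  refine Summable.of_norm_bounded h1 fun p => ?_
  rw [norm_mul, Complex.norm_natCast, Complex.norm_natCast_cpow_of_pos p.2.pos, Complex.neg_re]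
  exact mul_le_mul_of_nonneg_right (H332.PIT.hc_cast_le p.2) (by positivity)

theorem SD_cmbE {w : ℂ} (hw : 1 < w.re) :
    SD (cmbE L a) w = ∑ j, (a j : ℂ) * PS (L j) w := by
  classical
  have h1 : ∀ j, HasSum (fun p : Nat.Primes => (a j : ℂ) *
      ((Nat.card (𝓞 (L j) →+* ZMod (p : ℕ)) : ℂ) * ((p : ℕ) : ℂ) ^ (-w)))
      ((a j : ℂ) * PS (L j) w) := fun j => (PS_summable (L j) hw).hasSum.mul_left _
  have h2 := hasSum_sum (s := Finset.univ) fun j _ => h1 j
  have hinj : Function.Injective fun p : Nat.Primes => ((p, 0) : Nat.Primes × ℕ) := by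
    intro p q h
    exact congrArg Prod.fst h
  have h3 : HasSum (fun c => cmbE L a c * ((Qc c : ℕ) : ℂ) ^ (-w))
      (∑ j, (a j : ℂ) * PS (L j) w) := by
    refine (hinj.hasSum_iff (f := fun c => cmbE L a c * ((Qc c : ℕ) : ℂ) ^ (-w)) ?_).1 ?_
    · intro c hc
      have h4 : c.2 ≠ 0 := by
        intro h
        exact hc ⟨c.1, Prod.ext rfl h.symm⟩
      unfold cmbE
      rw [if_neg h4, zero_mul]
    · refine Eq.mp (congrArg (fun u => HasSum u _) (funext fun p => ?_)) h2
      rw [Function.comp_apply]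
      unfold cmbE cmb
      rw [if_pos rfl, Qc_zero, Finset.sum_mul]
      exact Finset.sum_congr rfl fun j _ => by ring
  exact h3.tsum_eq

variable {L a}

/-- **Bounded coefficients which are nearly the opposite of a combination of the numbers of the
homomorphisms.** -/
theorem near_one {d : Nat.Primes × ℕ → ℂ} {C : ℝ} (hd : ∀ c, ‖d c‖ ≤ C) {D : ℝ}
    (h : ∀ᶠ p : Nat.Primes in cofinite, ‖d (p, 0) + cmb L a p‖ ≤
      D * ((p : ℕ) : ℝ) ^ (-(1 / 2) : ℝ)) {r : ℤ} (hr : ∑ j, a j = r) :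
    ∃ G : ℂ → ℂ, AnalyticAt ℂ G 1 ∧ ∀ᶠ w in 𝓝 (1 : ℂ), 1 < w.re →
      Complex.exp (SD d w) = (w - 1) ^ r * Complex.exp (G w) := by
  classical
  -- the error
  set e : Nat.Primes × ℕ → ℂ := fun c => d c + cmbE L a c with he
  have hC0 : 0 ≤ C := (norm_nonneg _).trans (hd (⟨2, Nat.prime_two⟩, 0))
  have hM0 : 0 ≤ cmbC L a := (norm_nonneg _).trans (norm_cmb L a ⟨2, Nat.prime_two⟩)
  have heb : ∀ c, ‖e c‖ ≤ C + cmbC L a := fun c =>
    (norm_add_le _ _).trans (add_le_add (hd c) (norm_cmbE L a c))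
  have hsum : ∀ σ : ℝ, 1 / 2 < σ → Summable fun c => ‖e c‖ * ((Qc c : ℕ) : ℝ) ^ (-σ) := by
    intro σ hσ
    have h1 := (summable_Q σ (by linarith) 1 (by push_cast; linarith)).mul_left (C + cmbC L a)
    have h2 := (summable_Q (σ + 1 / 2) (by linarith) 0 (by push_cast; linarith)).mul_left |D|
    refine Summable.of_norm_bounded_eventually (h1.add h2) ?_
    rw [Filter.eventually_cofinite] at h ⊢
    refine (h.image fun p : Nat.Primes => ((p, 0) : Nat.Primes × ℕ)).subset ?_
    intro c hc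
    rw [Set.mem_ofPred_eq] at hc
    by_cases hc0 : c.2 = 0
    · refine ⟨c.1, ?_, Prod.ext rfl hc0.symm⟩
      rw [Set.mem_ofPred_eq]
      intro h3
      apply hc
      have hp0 : (0 : ℝ) < ((c.1 : ℕ) : ℝ) := by exact_mod_cast c.1.2.pos
      have hcq : c = (c.1, 0) := Prod.ext rfl hc0
      have h4 : ‖e c‖ ≤ |D| * ((Qc c : ℕ) : ℝ) ^ (-(1 / 2) : ℝ) := by
        have h5 : e c = d (c.1, 0) + cmb L a c.1 := by
          rw [he]
          simp only
          unfold cmbE
          rw [if_pos hc0, ← hcq]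
        have h6 : Qc c = c.1 := by
          rw [hcq, Qc_zero]
        rw [h5, h6]
        exact h3.trans (mul_le_mul_of_nonneg_right (le_abs_self D) (by positivity))
      have hq0 : (0 : ℝ) < ((Qc c : ℕ) : ℝ) := by exact_mod_cast Qc_pos c
      rw [Real.norm_of_nonneg (mul_nonneg (norm_nonneg _) (by positivity)),
        if_neg (by omega), if_pos (Nat.zero_le _), mul_zero, zero_add]
      refine (mul_le_mul_of_nonneg_right h4 (by positivity)).trans (le_of_eq ?_)
      rw [mul_assoc, ← Real.rpow_add hq0]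
      congr 2
      ring
    · exfalso
      apply hc
      rw [Real.norm_of_nonneg (mul_nonneg (norm_nonneg _) (by positivity)),
        if_pos (by omega), if_pos (Nat.zero_le _)]
      have h3 := mul_le_mul_of_nonneg_right (heb c)
        (show (0 : ℝ) ≤ ((Qc c : ℕ) : ℝ) ^ (-σ) by positivity)
      have h4 : (0 : ℝ) ≤ |D| * ((Qc c : ℕ) : ℝ) ^ (-(σ + 1 / 2)) := by positivity
      linarith
  have hdiff : DifferentiableOn ℂ (SD e) {w : ℂ | 1 / 2 < w.re} := by
    intro s hs
    simp only [Set.mem_ofPred_eq] at hs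
    obtain ⟨σ₁, h1, h3⟩ := exists_between hs
    have hopen : IsOpen {s : ℂ | σ₁ < s.re} := isOpen_lt continuous_const Complex.continuous_re
    have hd' : DifferentiableOn ℂ (SD e) {s : ℂ | σ₁ < s.re} := by
      refine Complex.differentiableOn_tsum_of_summable_norm (hsum σ₁ h1) ?_ hopen ?_
      · intro c s _
        have hq : ((Qc c : ℕ) : ℂ) ≠ 0 := by exact_mod_cast (Qc_pos c).ne'
        exact (((differentiableAt_id.neg).const_cpow (Or.inl hq)).const_mul _).differentiableWithinAt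
      · intro c s hs
        simp only [Set.mem_ofPred_eq] at hs
        rw [term_norm]
        apply mul_le_mul_of_nonneg_left _ (norm_nonneg _)
        apply Real.rpow_le_rpow_of_exponent_le (by exact_mod_cast Qc_pos c)
        linarith
    exact (hd'.differentiableAt (hopen.mem_nhds h3)).differentiableWithinAt
  have hopen : IsOpen {w : ℂ | 1 / 2 < w.re} := isOpen_lt continuous_const Complex.continuous_re
  have han : AnalyticAt ℂ (SD e) 1 := hdiff.analyticAt (hopen.mem_nhds (by
    rw [Set.mem_ofPred_eq, Complex.one_re]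
    norm_num))
  choose B hB hBw using fun j => PS_log (L j)
  refine ⟨fun w => SD e w - ∑ j, (a j : ℂ) * B j w, ?_, ?_⟩
  · refine han.sub (Finset.analyticAt_fun_sum _ fun j _ => ?_)
    exact analyticAt_const.mul (hB j)
  · have hall : ∀ᶠ w in 𝓝 (1 : ℂ), ∀ j, 1 < w.re → PS (L j) w = -Complex.log (w - 1) + B j w :=
      Filter.eventually_all.2 hBw
    filter_upwards [hall] with w hw hw1
    have hne : w - 1 ≠ 0 := by
      intro h0
      have : w = 1 := sub_eq_zero.1 h0
      rw [this, Complex.one_re] at hw1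
      exact lt_irrefl _ hw1
    have h1 : SD e w = SD d w + SD (cmbE L a) w := by
      unfold SD
      rw [← (summable_bdd hd hw1).tsum_add (summable_bdd (norm_cmbE L a) hw1)]
      refine tsum_congr fun c => ?_
      rw [he]
      simp only
      ring
    have h2 : SD d w = (r : ℂ) * Complex.log (w - 1) +
        (SD e w - ∑ j, (a j : ℂ) * B j w) := by
      rw [h1, SD_cmbE L a hw1]
      have h3 : ∑ j, (a j : ℂ) * PS (L j) w =
          -((∑ j, (a j : ℂ)) * Complex.log (w - 1)) + ∑ j, (a j : ℂ) * B j w := by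
        rw [Finset.sum_mul, ← Finset.sum_neg_distrib, ← Finset.sum_add_distrib]
        refine Finset.sum_congr rfl fun j _ => ?_
        rw [hw j hw1]
        ring
      have h4 : ∑ j, (a j : ℂ) = (r : ℂ) := by
        rw [← Complex.ofReal_sum, hr]
        push_cast
        rfl
      rw [h3, h4]
      ring
    rw [h2, Complex.exp_add]
    congr 1
    rw [← Complex.cpow_intCast, Complex.cpow_def_of_ne_zero hne, mul_comm]

end

end Pool.Agent.Y707.RX
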