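import Pool.Agent.Y707.RX.Rep
import Pool.Agent.Y707.PH.Final

/-! The character times the number of the fixed embeddings as a combination. -/

set_option autoImplicit false

namespace Pool.Agent.Y707.RX

open NumberField IsDedekindDomain Filter Topology
open Pool.Agent.W401.Cheb Pool.Agent.W540.BE Pool.Agent.W353.L1 Pool.Agent.W353.SP
open Pool.Agent.W353.NF (act act_apply act_trans fixn fixn_conj)
open Pool.Agent.W353.TD (ch rank Ph Ph_open)

theorem Div.mul {G : Type} [Group G] [Fintype G] {χ ψ : G → ℝ} (h : Div χ) (h' : Div ψ) :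
    Div fun g => χ g * ψ g := by
  intro g k a e
  simp only
  rw [h g k a e, h' g k a e]

section
variable {K : Type} [Field K] [NumberField K]

/-- fixed embeddings and the divisions -/
theorem fixn_le_of_zpowers (F : Type) [Field F] [NumberField F] [Algebra K F]
    {N : Subgroup (GK K)} [N.Normal] (hN : ∀ u ∈ N, act K F u = 1) {g h : GK K}
    (e : (QuotientGroup.mk g : GK K ⧸ N) ∈ Subgroup.zpowers (QuotientGroup.mk h : GK K ⧸ N))
    (i : F →ₐ[K] AlgebraicClosure K) (hi : act K F h i = i) : act K F g i = i := by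
  rw [Subgroup.mem_zpowers_iff] at e
  obtain ⟨k, hk⟩ := e
  rw [← QuotientGroup.mk_zpow, QuotientGroup.eq] at hk
  have h1 := hN _ hk
  have h2 : act K F g = act K F (h ^ k) := by
    rw [map_mul, map_inv] at h1
    exact (inv_mul_eq_one.1 h1).symm
  rw [h2, map_zpow]
  have h3 : act K F h ∈ MulAction.stabilizer (Equiv.Perm (F →ₐ[K] AlgebraicClosure K)) i := hi
  exact (MulAction.stabilizer (Equiv.Perm (F →ₐ[K] AlgebraicClosure K)) i).zpow_mem h3 k

theorem div_fix (F : Type) [Field F] [NumberField F] [Algebra K F]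
    {N : Subgroup (GK K)} [N.Normal] (hN : ∀ u ∈ N, act K F u = 1) [Fintype (GK K ⧸ N)] :
    Div fun q : GK K ⧸ N => (fixn K F q.out : ℝ) := by
  classical
  have key : ∀ g h : GK K, Subgroup.zpowers (QuotientGroup.mk g : GK K ⧸ N) =
      Subgroup.zpowers (QuotientGroup.mk h : GK K ⧸ N) → fixn K F g = fixn K F h := by
    intro g h e
    unfold fixn
    refine Nat.card_congr (Equiv.subtypeEquivRight fun i =>
      ⟨fixn_le_of_zpowers F hN ?_ i, fixn_le_of_zpowers F hN ?_ i⟩)
    · rw [e]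
      exact Subgroup.mem_zpowers _
    · rw [← e]
      exact Subgroup.mem_zpowers _
  intro g h a e
  have e1 : (QuotientGroup.mk g.out : GK K ⧸ N) = g := QuotientGroup.out_eq' g
  have e2 : (QuotientGroup.mk (a.out * h.out * a.out⁻¹) : GK K ⧸ N) = a * h * a⁻¹ := by
    rw [QuotientGroup.mk_mul, QuotientGroup.mk_mul, QuotientGroup.mk_inv, QuotientGroup.out_eq',
      QuotientGroup.out_eq']
  simp only
  rw [key g.out (a.out * h.out * a.out⁻¹) (by rw [e1, e2, e]), fixn_conj]

variable {W : Type} [AddCommGroup W] [Module ℚ W] [FiniteDimensional ℚ W]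

/-- the character of the dual -/
theorem ch_inv {N : Subgroup (GK K)} [N.Normal] (ρ : Representation ℚ (GK K) W)
    (hρ : ∀ u ∈ N, ρ u = 1) [Fintype (GK K ⧸ N)] (g : GK K) : ch ρ g⁻¹ = ch ρ g := by
  have hout : ∀ (g : GK K), ch ρ (QuotientGroup.mk g : GK K ⧸ N).out = ch ρ g := by
    intro g
    have h1 : (QuotientGroup.mk (QuotientGroup.mk g : GK K ⧸ N).out : GK K ⧸ N) =
        QuotientGroup.mk g := QuotientGroup.out_eq' _
    rw [QuotientGroup.eq] at h1
    have h2 := hρ _ h1
    have h3 : g = (QuotientGroup.mk g : GK K ⧸ N).out *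
      (((QuotientGroup.mk g : GK K ⧸ N).out)⁻¹ * g) := by group
    unfold ch
    conv_rhs => rw [h3, map_mul, h2, mul_one]
  have h1 := div_ch (N := N) ρ hρ (QuotientGroup.mk g⁻¹) (QuotientGroup.mk g) 1 (by
    rw [one_mul, inv_one, mul_one, QuotientGroup.mk_inv, Subgroup.zpowers_inv])
  simp only at h1
  rw [hout, hout] at h1
  exact h1

/-- **Artin's theorem** for the character times the number of the fixed embeddings. -/
theorem exists_comb_fix (ρ : Representation ℚ (GK K) W)
    (hρ : ∃ U : Subgroup (GK K), IsOpen (U : Set (GK K)) ∧ ∀ u ∈ U, ρ u = 1)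
    (F : Type) [Field F] [NumberField F] [Algebra K F] :
    ∃ (κ : Type) (_ : Fintype κ) (L : κ → IntermediateField K (AlgebraicClosure K))
      (_ : ∀ j, NumberField (L j)) (c : κ → ℝ),
      ∀ g : GK K, ch ρ g⁻¹ * (fixn K F g : ℝ) = ∑ j, c j * (fixn K (L j) g : ℝ) := by
  classical
  set N : Subgroup (GK K) := (Ph ρ F).ker with hNdef
  have hN : IsOpen (N : Set (GK K)) := Ph_open ρ F hρ
  have hN1 : ∀ u ∈ N, ρ u = 1 := by
    intro u hu
    have h1 : Ph ρ F u = 1 := hu
    have h2 := congrArg Prod.fst h1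
    exact congrArg Units.val h2
  have hN2 : ∀ u ∈ N, act K F u = 1 := by
    intro u hu
    have h1 : Ph ρ F u = 1 := hu
    exact congrArg Prod.snd h1
  have hfin : Finite (GK K ⧸ N) := Subgroup.quotient_finite_of_isOpen N hN
  let _ : Fintype (GK K ⧸ N) := Fintype.ofFinite _
  obtain ⟨c, hc⟩ := artin ((div_ch (N := N) ρ hN1).mul (div_fix F hN2))
  have hnf := fun C => fld_nf hN C
  refine ⟨Subgroup (GK K ⧸ N), inferInstance, fun C => fld N C, hnf, c, fun g => ?_⟩
  have h1 := hc (QuotientGroup.mk g)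
  have h3 : (QuotientGroup.mk (QuotientGroup.mk g : GK K ⧸ N).out : GK K ⧸ N) =
      QuotientGroup.mk g := QuotientGroup.out_eq' _
  rw [QuotientGroup.eq] at h3
  have h5 : g = (QuotientGroup.mk g : GK K ⧸ N).out *
    (((QuotientGroup.mk g : GK K ⧸ N).out)⁻¹ * g) := by group
  have h2 : ch ρ (QuotientGroup.mk g : GK K ⧸ N).out = ch ρ g := by
    have h4 := hN1 _ h3
    unfold ch
    conv_rhs => rw [h5, map_mul, h4, mul_one]
  have h6 : fixn K F (QuotientGroup.mk g : GK K ⧸ N).out = fixn K F g := by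
    have h4 := hN2 _ h3
    unfold fixn
    conv_rhs => rw [h5, map_mul, h4, mul_one]
  rw [ch_inv (N := N) ρ hN1, ← h2, ← h6]
  refine h1.trans (Finset.sum_congr rfl fun C _ => ?_)
  rw [← fixn_fld hN C g]

/-- the sum of the coefficients is the rank -/
theorem sum_comb (ρ : Representation ℚ (GK K) W)
    (hρ : ∃ U : Subgroup (GK K), IsOpen (U : Set (GK K)) ∧ ∀ u ∈ U, ρ u = 1)
    (F : IntermediateField K (AlgebraicClosure K)) [NumberField F]
    {κ : Type} [Fintype κ] {L : κ → IntermediateField K (AlgebraicClosure K)}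
    [hL : ∀ j, NumberField (L j)] {c : κ → ℝ}
    (h : ∀ g : GK K, ch ρ g⁻¹ * (fixn K F g : ℝ) = ∑ j, c j * (fixn K (L j) g : ℝ)) :
    ∑ j, c j = (rank ρ F : ℝ) := by
  classical
  have hm := mnD K
  choose σ hσ using exists_isFrob (F := K)
  have g2 : Hs (𝓝[>] 0) (ED K) (fun v => ch ρ (σ v)⁻¹ * fixn K F (σ v)) (rank ρ F : ℝ) := by
    have h6 := hm.fixMean ρ hρ F.val σ hσ
    have hr : rank ρ F = Module.finrank ℚ
        (Pool.Agent.W353.TD.inv ρ F.val.fieldRange.fixingSubgroup) := by
      rw [Pool.Agent.W353.TD.inv_eq, IntermediateField.fieldRange_val]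
      rfl
    rw [hr]
    exact h6
  have g3 : ∀ j, Hs (𝓝[>] 0) (ED K) (fun v => (fixn K (L j) (σ v) : ℝ)) 1 := by
    intro j
    have h6 := hm.fixMean (1 : Representation ℚ (GK K) ℚ) ⟨⊤, isOpen_univ, fun u _ => rfl⟩
      (L j).val σ hσ
    refine h6.congr (fun v => ?_) ?_
    · have : ch (1 : Representation ℚ (GK K) ℚ) (σ v)⁻¹ = 1 := by
        unfold ch
        simp
      rw [this, one_mul]
    · have h7 : Pool.Agent.W353.TD.inv (1 : Representation ℚ (GK K) ℚ)
          (L j).val.fieldRange.fixingSubgroup = ⊤ := by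
        refine eq_top_iff.2 fun x _ g _ => ?_
        rfl
      rw [h7, finrank_top, Module.finrank_self, Nat.cast_one]
  have g4 := hm.hsSum Finset.univ (fun j _ => hm.hsMul (g3 j) (c j))
  have g5 := g4.unique g2 fun v => (h (σ v)).symm
  rw [← g5]
  exact Finset.sum_congr rfl fun j _ => (mul_one _).symm

end

end Pool.Agent.Y707.RX
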