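import Mathlib

/-! Traces of the powers of a rational matrix of finite order. -/

set_option autoImplicit false

namespace Pool.Agent.Y707.RX

open Polynomial

section
variable {V : Type} [AddCommGroup V] [Module ℂ V] [FiniteDimensional ℂ V] {n : ℕ}
  {B : Module.End ℂ V} {ζ : ℂ}

/-- the projection to an eigenspace -/
noncomputable def pr (B : Module.End ℂ V) (ζ : ℂ) (n i : ℕ) : Module.End ℂ V :=
  (n : ℂ)⁻¹ • ∑ j ∈ Finset.range n, (ζ⁻¹ ^ (i * j)) • B ^ j

theorem mul_pr (hB : B ^ n = 1) (hζ : IsPrimitiveRoot ζ n) (hn : 0 < n) (i : ℕ) :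
    B * pr B ζ n i = ζ ^ i • pr B ζ n i := by
  have hζ0 : ζ ≠ 0 := hζ.ne_zero hn.ne'
  unfold pr
  rw [mul_smul_comm, smul_comm (ζ ^ i)]
  congr 1
  rw [Finset.mul_sum, Finset.smul_sum]
  have h1 : ∀ j, B * (ζ⁻¹ ^ (i * j) • B ^ j) = ζ ^ i • (ζ⁻¹ ^ (i * (j + 1)) • B ^ (j + 1)) := by
    intro j
    rw [mul_smul_comm, ← pow_succ', smul_smul]
    congr 1
    rw [Nat.mul_succ, pow_add, inv_pow ζ i]
    field_simp
  rw [Finset.sum_congr rfl fun j _ => h1 j]
  set F : ℕ → Module.End ℂ V := fun j => ζ ^ i • (ζ⁻¹ ^ (i * j) • B ^ j) with hF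
  have h2 : F n = F 0 := by
    rw [hF]
    simp only
    rw [hB, mul_comm i n, pow_mul, inv_pow, hζ.pow_eq_one]
    simp
  have h3 := Finset.sum_range_succ F n
  rw [Finset.sum_range_succ', h2] at h3
  exact add_right_cancel h3

theorem pow_mul_pr (hB : B ^ n = 1) (hζ : IsPrimitiveRoot ζ n) (hn : 0 < n) (i k : ℕ) :
    B ^ k * pr B ζ n i = ζ ^ (i * k) • pr B ζ n i := by
  induction k with
  | zero => simp
  | succ k ih =>
    rw [pow_succ', mul_assoc, ih, mul_smul_comm, mul_pr hB hζ hn, smul_smul, Nat.mul_succ, pow_add]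

theorem pr_idem (hB : B ^ n = 1) (hζ : IsPrimitiveRoot ζ n) (hn : 0 < n) (i : ℕ) :
    pr B ζ n i * pr B ζ n i = pr B ζ n i := by
  have hζ0 : ζ ≠ 0 := hζ.ne_zero hn.ne'
  have hn0 : (n : ℂ) ≠ 0 := Nat.cast_ne_zero.2 hn.ne'
  conv_lhs => arg 1; unfold pr
  rw [smul_mul_assoc, Finset.sum_mul]
  have h1 : ∀ j ∈ Finset.range n, (ζ⁻¹ ^ (i * j) • B ^ j) * pr B ζ n i = pr B ζ n i := by
    intro j _
    rw [smul_mul_assoc, pow_mul_pr hB hζ hn, smul_smul, inv_pow,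
      inv_mul_cancel₀ (pow_ne_zero _ hζ0), one_smul]
  rw [Finset.sum_congr rfl h1, Finset.sum_const, Finset.card_range, ← Nat.cast_smul_eq_nsmul ℂ,
    smul_smul, inv_mul_cancel₀ hn0, one_smul]

theorem sum_pr (hζ : IsPrimitiveRoot ζ n) (hn : 0 < n) :
    ∑ i ∈ Finset.range n, pr B ζ n i = 1 := by
  have hn0 : (n : ℂ) ≠ 0 := Nat.cast_ne_zero.2 hn.ne'
  unfold pr
  rw [← Finset.smul_sum, Finset.sum_comm]
  have h1 : ∀ j ∈ Finset.range n, ∑ i ∈ Finset.range n, ζ⁻¹ ^ (i * j) • B ^ j =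
      if j = 0 then (n : ℂ) • (1 : Module.End ℂ V) else 0 := by
    intro j hj
    rw [← Finset.sum_smul]
    split_ifs with h
    · subst h
      simp
    · have h2 : ζ⁻¹ ^ j ≠ 1 := by
        intro h3
        rw [inv_pow, inv_eq_one] at h3
        have h4 := hζ.dvd_of_pow_eq_one j h3
        exact h (Nat.eq_zero_of_dvd_of_lt h4 (Finset.mem_range.1 hj))
      have h3 : ∑ i ∈ Finset.range n, ζ⁻¹ ^ (i * j) = 0 := by
        have h4 : ∀ i, ζ⁻¹ ^ (i * j) = (ζ⁻¹ ^ j) ^ i := fun i => by rw [mul_comm, pow_mul]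
        simp only [h4]
        have h5 := mul_neg_geom_sum (ζ⁻¹ ^ j) n
        rw [← pow_mul, mul_comm j n, pow_mul, inv_pow ζ n, hζ.pow_eq_one, inv_one, one_pow,
          sub_self] at h5
        rcases mul_eq_zero.1 h5 with h6 | h6
        · exact absurd (sub_eq_zero.1 h6).symm h2
        · exact h6
      rw [h3, zero_smul]
  rw [Finset.sum_congr rfl h1, Finset.sum_ite_eq' (Finset.range n) 0, if_pos (Finset.mem_range.2 hn),
    smul_smul, inv_mul_cancel₀ hn0, one_smul]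

theorem trace_pow_eq (hB : B ^ n = 1) (hζ : IsPrimitiveRoot ζ n) (hn : 0 < n) :
    ∃ t : ℕ → ℕ, ∀ k, LinearMap.trace ℂ V (B ^ k) = ∑ i ∈ Finset.range n, (t i : ℂ) * (ζ ^ k) ^ i := by
  refine ⟨fun i => Module.finrank ℂ (LinearMap.range (pr B ζ n i)), fun k => ?_⟩
  have h1 : B ^ k = ∑ i ∈ Finset.range n, ζ ^ (i * k) • pr B ζ n i := by
    rw [← Finset.sum_congr rfl fun i _ => pow_mul_pr hB hζ hn i k, ← Finset.mul_sum,
      sum_pr hζ hn, mul_one]
  rw [h1, map_sum]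
  refine Finset.sum_congr rfl fun i _ => ?_
  have h2 : LinearMap.trace ℂ V (pr B ζ n i) =
      Module.finrank ℂ (LinearMap.range (pr B ζ n i)) :=
    (LinearMap.IsIdempotentElem.isProj_range _ (pr_idem hB hζ hn i)).trace
  rw [map_smul, smul_eq_mul, h2, mul_comm, ← pow_mul, mul_comm i k]

end

/-- **Traces of powers prime to the order.** -/
theorem trace_pow_coprime {V : Type} [AddCommGroup V] [Module ℚ V] [FiniteDimensional ℚ V] {n : ℕ}
    (hn : 0 < n) {A : Module.End ℚ V} (hA : A ^ n = 1) {k : ℕ} (hk : k.Coprime n) :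
    LinearMap.trace ℚ V (A ^ k) = LinearMap.trace ℚ V A := by
  set B : Module.End ℂ (TensorProduct ℚ ℂ V) := LinearMap.baseChange ℂ A with hBdef
  have hpow : ∀ j, B ^ j = LinearMap.baseChange ℂ (A ^ j) := by
    intro j
    rw [hBdef, ← LinearMap.baseChange_pow]
  have htr : ∀ j, LinearMap.trace ℂ _ (B ^ j) = ((LinearMap.trace ℚ V (A ^ j) : ℚ) : ℂ) := by
    intro j
    rw [hpow, LinearMap.trace_baseChange]
    rfl
  have hB : B ^ n = 1 := by
    rw [hpow, hA]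
    exact LinearMap.baseChange_id
  set ζ : ℂ := Complex.exp (2 * Real.pi * Complex.I / n) with hζdef
  have hζ : IsPrimitiveRoot ζ n := Complex.isPrimitiveRoot_exp n hn.ne'
  obtain ⟨t, ht⟩ := trace_pow_eq hB hζ hn
  set P : ℚ[X] := ∑ i ∈ Finset.range n, C (t i : ℚ) * X ^ i - C (LinearMap.trace ℚ V A) with hP
  have hev : ∀ z : ℂ, aeval z P = ∑ i ∈ Finset.range n, (t i : ℂ) * z ^ i -
      ((LinearMap.trace ℚ V A : ℚ) : ℂ) := by
    intro z
    rw [hP, map_sub, map_sum, aeval_C]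
    congr 1
    refine Finset.sum_congr rfl fun i _ => ?_
    rw [map_mul, aeval_C, map_pow, aeval_X]
    simp
  have h1 : aeval ζ P = 0 := by
    have h2 := ht 1
    rw [htr, pow_one, pow_one] at h2
    rw [hev, ← h2, sub_self]
  have h3 : cyclotomic n ℚ ∣ P := by
    rw [cyclotomic_eq_minpoly_rat hζ hn]
    exact minpoly.dvd ℚ ζ h1
  obtain ⟨Q, hQ⟩ := h3
  have h4 : aeval (ζ ^ k) P = 0 := by
    rw [hQ, map_mul]
    have h5 : aeval (ζ ^ k) (cyclotomic n ℚ) = 0 := by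
      have h6 := (hζ.pow_of_coprime k hk).isRoot_cyclotomic hn
      rw [aeval_def, eval₂_eq_eval_map, map_cyclotomic]
      exact h6
    rw [h5, zero_mul]
  rw [hev, ← ht k, htr, sub_eq_zero] at h4
  exact_mod_cast h4

end Pool.Agent.Y707.RX
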