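import Mathlib

/-! Artin's induction theorem for real class functions. -/

set_option autoImplicit false

namespace Pool.Agent.Y707.RX

open Finset

section
variable {G : Type} [Group G] [Fintype G]

/-- the number of fixed cosets -/
noncomputable def fx (C : Subgroup G) (g : G) : ℝ := Nat.card {x : G ⧸ C // g • x = x}

/-- functions constant on the divisions -/
def Div (χ : G → ℝ) : Prop :=
  ∀ g h a : G, Subgroup.zpowers g = Subgroup.zpowers (a * h * a⁻¹) → χ g = χ h

theorem Div.conj {χ : G → ℝ} (h : Div χ) (a g : G) : χ (a * g * a⁻¹) = χ g := h _ _ a rfl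

theorem fx_conj (C : Subgroup G) (a g : G) : fx C (a * g * a⁻¹) = fx C g := by
  unfold fx
  congr 1
  refine Nat.card_congr ⟨fun x => ⟨a⁻¹ • x.1, ?_⟩, fun x => ⟨a • x.1, ?_⟩, fun x => ?_, fun x => ?_⟩
  · have h := x.2
    rw [mul_smul, mul_smul] at h
    have h2 := congrArg (fun y => a⁻¹ • y) h
    simp only [inv_smul_smul] at h2
    exact h2
  · rw [mul_smul, mul_smul, inv_smul_smul, x.2]
  · exact Subtype.ext (smul_inv_smul a x.1)
  · exact Subtype.ext (inv_smul_smul a x.1)

theorem fx_zpowers (C : Subgroup G) {g h : G} (e : Subgroup.zpowers g = Subgroup.zpowers h) :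
    fx C g = fx C h := by
  have key : ∀ {g h : G}, g ∈ Subgroup.zpowers h → ∀ x : G ⧸ C, h • x = x → g • x = x := by
    intro g h hg x hx
    have h1 : h ∈ MulAction.stabilizer G x := hx
    have h2 : Subgroup.zpowers h ≤ MulAction.stabilizer G x := by
      rw [Subgroup.zpowers_le]
      exact h1
    exact h2 hg
  unfold fx
  congr 1
  refine Nat.card_congr (Equiv.subtypeEquivRight fun x => ⟨key ?_ x, key ?_ x⟩)
  · rw [e]
    exact Subgroup.mem_zpowers h
  · rw [← e]
    exact Subgroup.mem_zpowers g

theorem fx_div (C : Subgroup G) : Div (fx C) := by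
  intro g h a e
  rw [fx_zpowers C e, fx_conj]

/-- Frobenius reciprocity -/
theorem sum_fx (C : Subgroup G) {χ : G → ℝ} (h : Div χ) [DecidablePred (· ∈ C)] :
    ∑ g, χ g * fx C g = (Nat.card (G ⧸ C) : ℝ) * ∑ g with g ∈ C, χ g := by
  classical
  have := Fintype.ofFinite (G ⧸ C)
  have h1 : ∀ g, fx C g = ∑ x : G ⧸ C, if g • x = x then (1 : ℝ) else 0 := by
    intro g
    unfold fx
    rw [Nat.card_eq_fintype_card, Fintype.card_subtype, Finset.sum_boole]
  have h2 : ∀ x : G ⧸ C, ∑ g, χ g * (if g • x = x then (1 : ℝ) else 0) = ∑ g with g ∈ C, χ g := by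
    intro x
    induction x using QuotientGroup.induction_on with
    | H a =>
      rw [Finset.sum_filter]
      refine Fintype.sum_equiv (MulAut.conj a⁻¹).toEquiv _ _ fun g => ?_
      have e1 : (MulAut.conj a⁻¹).toEquiv g = a⁻¹ * g * a := by
        change a⁻¹ * g * a⁻¹⁻¹ = _
        rw [inv_inv]
      rw [e1]
      have e2 : g • (QuotientGroup.mk a : G ⧸ C) = QuotientGroup.mk a ↔ a⁻¹ * g * a ∈ C := by
        change (QuotientGroup.mk (g * a) : G ⧸ C) = QuotientGroup.mk a ↔ _
        rw [eq_comm, QuotientGroup.eq, mul_assoc]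
      have e3 : χ (a⁻¹ * g * a) = χ g := by
        have := h.conj a⁻¹ g
        rwa [inv_inv] at this
      by_cases hc : a⁻¹ * g * a ∈ C
      · rw [if_pos (e2.2 hc), if_pos hc, mul_one, e3]
      · rw [if_neg (fun h' => hc (e2.1 h')), if_neg hc, mul_zero]
  calc ∑ g, χ g * fx C g = ∑ g, ∑ x : G ⧸ C, χ g * (if g • x = x then (1 : ℝ) else 0) := by
        refine Finset.sum_congr rfl fun g _ => ?_
        rw [h1, Finset.mul_sum]
    _ = ∑ x : G ⧸ C, ∑ g, χ g * (if g • x = x then (1 : ℝ) else 0) := Finset.sum_comm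
    _ = _ := by
        rw [Finset.sum_congr rfl fun x _ => h2 x, Finset.sum_const, nsmul_eq_mul, Finset.card_univ,
          Nat.card_eq_fintype_card]

/-- a class function with zero sums over the cyclic subgroups is zero -/
theorem eq_zero_of_sums {χ : G → ℝ} (h : Div χ)
    (h0 : ∀ (C : Subgroup G) [DecidablePred (· ∈ C)], ∑ g with g ∈ C, χ g = 0) : χ = 0 := by
  classical
  -- sums over the generators of cyclic subgroups
  have key : ∀ (n : ℕ) (C : Subgroup G), Nat.card C = n →
      ∑ g with Subgroup.zpowers g = C, χ g = 0 := by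
    intro n
    induction n using Nat.strong_induction_on with
    | _ n ih =>
      intro C hC
      have h1 : ∑ g with g ∈ C, χ g = ∑ D : Subgroup G with D ≤ C,
          ∑ g with Subgroup.zpowers g = D, χ g := by
        rw [Finset.sum_comm' (t' := Finset.univ.filter fun g : G => g ∈ C)
          (s' := fun g => {Subgroup.zpowers g})]
        · refine Finset.sum_congr rfl fun g _ => ?_
          rw [Finset.sum_singleton]
        · intro D g
          simp only [Finset.mem_filter, Finset.mem_univ, true_and, Finset.mem_singleton]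
          constructor
          · rintro ⟨h1, rfl⟩
            exact ⟨rfl, h1 (Subgroup.mem_zpowers g)⟩
          · rintro ⟨rfl, h1⟩
            exact ⟨(Subgroup.zpowers_le).2 h1, rfl⟩
      have hCmem : C ∈ Finset.univ.filter (fun D : Subgroup G => D ≤ C) :=
        Finset.mem_filter.2 ⟨Finset.mem_univ C, le_refl C⟩
      rw [h0 C, Finset.sum_eq_single_of_mem C hCmem] at h1
      · exact h1.symm
      · intro D hD hne
        have h2 : D < C := lt_of_le_of_ne (Finset.mem_filter.1 hD).2 hne
        refine ih (Nat.card D) ?_ D rfl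
        rw [← hC]
        exact Set.ncard_lt_ncard (s := (D : Set G)) (t := (C : Set G)) h2 (Set.toFinite _)
  funext g
  have h1 := key _ (Subgroup.zpowers g) rfl
  have h2 : ∀ a ∈ Finset.univ.filter (fun a : G => Subgroup.zpowers a = Subgroup.zpowers g),
      χ a = χ g := by
    intro a ha
    refine h a g 1 ?_
    rw [one_mul, inv_one, mul_one]
    exact (Finset.mem_filter.1 ha).2
  rw [Finset.sum_congr rfl h2, Finset.sum_const, nsmul_eq_mul] at h1
  rcases mul_eq_zero.1 h1 with h3 | h3
  · exfalso
    have h4 : (Finset.univ.filter (fun a : G => Subgroup.zpowers a = Subgroup.zpowers g)).card ≠ 0 :=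
      Finset.card_ne_zero.2 ⟨g, Finset.mem_filter.2 ⟨Finset.mem_univ _, rfl⟩⟩
    exact h4 (by exact_mod_cast h3)
  · exact h3

/-- **Artin's theorem** -/
theorem artin {χ : G → ℝ} (h : Div χ) : ∃ c : Subgroup G → ℝ, ∀ g, χ g = ∑ C, c C * fx C g := by
  classical
  let E := EuclideanSpace ℝ G
  let e : (G → ℝ) ≃ₗ[ℝ] E := (WithLp.linearEquiv 2 ℝ (G → ℝ)).symm
  let P : Submodule ℝ E := Submodule.span ℝ (Set.range fun C : Subgroup G => e (fx C))
  have hinner : ∀ a b : G → ℝ, inner ℝ (e a) (e b) = ∑ g, b g * a g := by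
    intro a b
    rw [PiLp.inner_apply]
    refine Finset.sum_congr rfl fun g _ => ?_
    rfl
  -- functions of `P` are constant on the divisions
  have hP : ∀ x ∈ P, Div (e.symm x) := by
    intro x hx
    induction hx using Submodule.span_induction with
    | mem x hx =>
      obtain ⟨C, rfl⟩ := hx
      simp only [LinearEquiv.symm_apply_apply]
      exact fx_div C
    | zero =>
      rw [map_zero]
      intro g h a _
      rfl
    | add x y _ _ hx hy =>
      rw [map_add]
      intro g h a e1
      rw [Pi.add_apply, Pi.add_apply, hx g h a e1, hy g h a e1]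
    | smul r x _ hx =>
      rw [map_smul]
      intro g h a e1
      rw [Pi.smul_apply, Pi.smul_apply, hx g h a e1]
  obtain ⟨y, hy, z, hz, hyz⟩ := Submodule.exists_add_mem_mem_orthogonal (K := P) (e χ)
  have h1 : Div (e.symm z) := by
    have h2 : e.symm z = χ - e.symm y := by
      have h3 := congrArg e.symm hyz
      rw [LinearEquiv.symm_apply_apply, map_add] at h3
      rw [h3]
      abel
    rw [h2]
    intro g k a e1
    rw [Pi.sub_apply, Pi.sub_apply, h g k a e1, hP y hy g k a e1]
  have h2 : e.symm z = 0 := by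
    refine eq_zero_of_sums h1 fun C _ => ?_
    have h3 : inner ℝ (e (fx C)) z = 0 := (Submodule.mem_orthogonal P z).1 hz _
      (Submodule.subset_span ⟨C, rfl⟩)
    have h4 : z = e (e.symm z) := (e.apply_symm_apply z).symm
    rw [h4, hinner, sum_fx C h1] at h3
    rcases mul_eq_zero.1 h3 with h5 | h5
    · exfalso
      have : Nat.card (G ⧸ C) ≠ 0 := Nat.card_pos.ne'
      exact this (by exact_mod_cast h5)
    · exact h5
  have h3 : z = 0 := by
    rw [← e.apply_symm_apply z, h2, map_zero]
  have h4 : e χ ∈ P := by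
    rw [hyz, h3, add_zero]
    exact hy
  obtain ⟨c, hc⟩ := (Submodule.mem_span_range_iff_exists_fun ℝ).1 h4
  refine ⟨c, fun g => ?_⟩
  have h5 : χ = ∑ C, c C • fx C := by
    apply e.injective
    rw [← hc, map_sum]
    exact Finset.sum_congr rfl fun C _ => (map_smul e _ _).symm
  rw [h5, Finset.sum_apply]
  rfl

end

end Pool.Agent.Y707.RX
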