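import Pool.Agent.Y707.RX.Comb
import Pool.Agent.Y707.RX.Fam
import Pool.Agent.Y707.RX.Cmp

/-! The coefficients at the prime numbers. -/

set_option autoImplicit false

namespace Pool.Agent.Y707.RX

open NumberField IsDedekindDomain Filter Topology
open Pool.Agent.W401.Cheb Pool.Agent.W540.BE Pool.Agent.W353.L1 Pool.Agent.W353.SP
open Pool.Agent.H126R3 (Qc Qc_pos)
open Pool.Agent.W385.CP (Qc_zero card_Fc Fc hom_int)
open Pool.Agent.W353.NF (act fixn vx push_fix qh_one nm_vx)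
open Pool.Agent.W353.TP (HX push qh res sum_push card_hom_le)
open Pool.Agent.W353.TD (ch rank)
open Pool.Agent.W353.FB (Fibration LocalValue ValueAt IsPartOf dist_le finite_below valueAt_ker)
open Pool.Agent.H921R2.TatePole (kerPrime)
open Pool.Agent.Y707.PH (Off off_eventually)

section
variable {K : Type} [Field K] [NumberField K]
  (R : Finset (HeightOneSpectrum (𝓞 K))) (F : Type) [Field F] [NumberField F] [Algebra K F]
  (δ : ∀ (κ : Type) [Field κ], (𝓞 K →+* κ) → ℝ)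

open Classical in
/-- the sum of the values -/
noncomputable def sm (k : Type) [Field k] : ℝ := ∑ᶠ φ : 𝓞 F →+* k,
  if Off R (φ.comp (algebraMap (𝓞 K) (𝓞 F))) then δ k (φ.comp (algebraMap (𝓞 K) (𝓞 F))) else 0

variable {R F δ}

theorem abs_sm {C : ℝ} (hδ : ∀ (κ : Type) [Field κ] [Finite κ] (φ : 𝓞 K →+* κ), Off R φ →
    |δ κ φ| ≤ C) (k : Type) [Field k] [Finite k] :
    |sm R F δ k| ≤ Module.finrank ℤ (𝓞 F) * |C| := by
  classical
  have hfin := hom_int F k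
  have hf1 := hfin.1
  let _ := Fintype.ofFinite (𝓞 F →+* k)
  unfold sm
  rw [finsum_eq_sum_of_fintype]
  refine (Finset.abs_sum_le_sum_abs _ _).trans ?_
  have h1 : ∀ φ ∈ (Finset.univ : Finset (𝓞 F →+* k)),
      |if Off R (φ.comp (algebraMap (𝓞 K) (𝓞 F))) then
        δ k (φ.comp (algebraMap (𝓞 K) (𝓞 F))) else 0| ≤ |C| := by
    intro φ _
    split_ifs with h
    · exact (hδ k _ h).trans (le_abs_self C)
    · rw [abs_zero]
      exact abs_nonneg _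
  refine (Finset.sum_le_card_nsmul _ _ _ h1).trans ?_
  rw [nsmul_eq_mul, Finset.card_univ, ← Nat.card_eq_fintype_card]
  exact mul_le_mul_of_nonneg_right (by exact_mod_cast hfin.2) (abs_nonneg _)

variable {W : Type} [AddCommGroup W] [Module ℚ W] [FiniteDimensional ℚ W]
  {ρ : Representation ℚ (GK K) W} {P : LocalValue K}

/-- the values are the traces on the algebraic part up to a small error -/
theorem exists_val (hP : IsPartOf P (Module.finrank ℚ W) ρ) (σ : HeightOneSpectrum (𝓞 K) → GK K)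
    (hσ : ∀ v, IsFrob v (σ v)) :
    ∃ C₁ : ℝ, 0 ≤ C₁ ∧ ∀ᶠ v in cofinite, ∃ z : ℝ, ValueAt P v z ∧
      |z - ch ρ (σ v)⁻¹| ≤ C₁ * (Ideal.absNorm v.asIdeal : ℝ) ^ (-(1 / 2) : ℝ) := by
  obtain ⟨-, C, hC⟩ := hP
  refine ⟨|C|, abs_nonneg _, ?_⟩
  filter_upwards [hC] with v hv
  obtain ⟨z, γ, h2, h3, h4, h5⟩ := hv (σ v) (hσ v)
  have hq0 : (0 : ℝ) ≤ (Ideal.absNorm v.asIdeal : ℝ) ^ (-(1 / 2) : ℝ) := by positivity
  have h5' : ‖(z : ℂ) - ∑ j, γ j‖ ≤ |C| * (Ideal.absNorm v.asIdeal : ℝ) ^ (-(1 / 2) : ℝ) :=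
    h5.trans (mul_le_mul_of_nonneg_right (le_abs_self C) hq0)
  have h6 := dist_le h3 h4 h5'
  rw [Nat.sub_self, Nat.cast_zero, zero_add] at h6
  exact ⟨z, h2, h6⟩

/-- the sum of the traces over the homomorphisms -/
theorem sum_ch (F : IntermediateField K (AlgebraicClosure K)) [NumberField F]
    (σ : HeightOneSpectrum (𝓞 K) → GK K) (hσ : ∀ v, IsFrob v (σ v))
    {κ : Type} [Fintype κ] {L : κ → IntermediateField K (AlgebraicClosure K)}
    [hL : ∀ j, NumberField (L j)] {a : κ → ℝ}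
    (h : ∀ g : GK K, ch ρ g⁻¹ * (fixn K F g : ℝ) = ∑ j, a j * (fixn K (L j) g : ℝ)) :
    ∀ᶠ p : Nat.Primes in cofinite,
      ∑ ψ : 𝓞 F →+* ZMod (p : ℕ), ch ρ (σ (vx ⟨p, res K ψ⟩))⁻¹ =
        ∑ j, a j * (Nat.card (𝓞 (L j) →+* ZMod (p : ℕ)) : ℝ) := by
  classical
  obtain ⟨S, hS⟩ := push_fix K F
  choose T hT using fun j => push_fix K (L j)
  have h1 : ∀ᶠ p : Nat.Primes in cofinite, ∀ ψ : 𝓞 K →+* ZMod (p : ℕ),
      (kerPrime p ψ).1.1 ∉ (S : Set (HeightOneSpectrum (𝓞 K))) :=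
    finite_below (F := K) S.finite_toSet
  have h2 : ∀ᶠ p : Nat.Primes in cofinite, ∀ j, ∀ ψ : 𝓞 K →+* ZMod (p : ℕ),
      (kerPrime p ψ).1.1 ∉ (T j : Set (HeightOneSpectrum (𝓞 K))) :=
    Filter.eventually_all.2 fun j => finite_below (F := K) (T j).finite_toSet
  filter_upwards [h1, h2] with p hp1 hp2
  have : Fact (p : ℕ).Prime := ⟨p.2⟩
  have e1 : ∑ ψ : 𝓞 F →+* ZMod (p : ℕ), ch ρ (σ (vx ⟨p, res K ψ⟩))⁻¹ =
      ∑ u : 𝓞 K →+* ZMod (p : ℕ),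
        push K (fun y : HX F => ch ρ (σ (vx ⟨y.1, res K y.2⟩))⁻¹) ⟨p, u⟩ :=
    (sum_push (fun y : HX F => ch ρ (σ (vx ⟨y.1, res K y.2⟩))⁻¹) p).symm
  have e2 : ∀ u : 𝓞 K →+* ZMod (p : ℕ),
      push K (fun y : HX F => ch ρ (σ (vx ⟨y.1, res K y.2⟩))⁻¹) ⟨p, u⟩ =
        ∑ j, a j * push K (qh (1 : 𝓞 (L j))) ⟨p, u⟩ := by
    intro u
    have e3 : push K (fun y : HX F => ch ρ (σ (vx ⟨y.1, res K y.2⟩))⁻¹) ⟨p, u⟩ =
        ch ρ (σ (vx ⟨p, u⟩))⁻¹ * push K (qh (1 : 𝓞 F)) ⟨p, u⟩ := by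
      unfold push
      rw [Finset.mul_sum]
      refine Finset.sum_congr rfl fun ψ hψ => ?_
      rw [Finset.mem_filter] at hψ
      have e4 : (⟨p, res K ψ⟩ : HX K) = ⟨p, u⟩ := by
        rw [hψ.2]
      rw [qh_one, mul_one]
      simp only
      rw [e4]
    rw [e3, hS ⟨p, u⟩ (hp1 u) (σ (vx ⟨p, u⟩)) (hσ _), h]
    refine Finset.sum_congr rfl fun j _ => ?_
    rw [hT j ⟨p, u⟩ (hp2 j u) (σ (vx ⟨p, u⟩)) (hσ _)]
  rw [e1, Finset.sum_congr rfl fun u _ => e2 u, Finset.sum_comm]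
  refine Finset.sum_congr rfl fun j _ => ?_
  rw [← Finset.mul_sum, sum_push]
  congr 1
  rw [Finset.sum_congr rfl fun ψ _ => qh_one (F := L j) ⟨p, ψ⟩, Finset.sum_const, nsmul_eq_mul,
    mul_one, Nat.card_eq_fintype_card]
  rfl

/-- **The sums of the values at the prime numbers.** -/
theorem key (hP : IsPartOf P (Module.finrank ℚ W) ρ)
    (hval : ∀ (κ : Type) [Field κ] [Finite κ] (φ : 𝓞 K →+* κ), Off R φ → ∀ z : ℝ, P κ φ z →
      z = δ κ φ) (F : IntermediateField K (AlgebraicClosure K)) [NumberField F] :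
    ∃ (κ : Type) (_ : Fintype κ) (L : κ → IntermediateField K (AlgebraicClosure K))
      (_ : ∀ j, NumberField (L j)) (a : κ → ℝ) (D : ℝ),
      ∑ j, a j = (rank ρ F : ℝ) ∧
      ∀ᶠ p : Nat.Primes in cofinite,
        haveI : Fact (p : ℕ).Prime := ⟨p.2⟩
        ‖((-sm R F δ (ZMod (p : ℕ)) : ℝ) : ℂ) + cmb (fun j => L j) a p‖ ≤
          D * ((p : ℕ) : ℝ) ^ (-(1 / 2) : ℝ) := by
  classical
  choose σ hσ using exists_isFrob (F := K)
  obtain ⟨κ, hκ, L, hL, a, ha⟩ := exists_comb_fix ρ hP.1 F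
  have hsum := sum_comb ρ hP.1 F ha
  obtain ⟨C₁, hC₁, hv⟩ := exists_val hP σ hσ
  refine ⟨κ, hκ, L, hL, a, Module.finrank ℚ F * C₁, hsum, ?_⟩
  rw [Filter.eventually_cofinite] at hv
  filter_upwards [off_eventually R, finite_below (F := K) hv, sum_ch F σ hσ ha] with p h1 h2 h3
  have : Fact (p : ℕ).Prime := ⟨p.2⟩
  have hval' : ∀ ψ : 𝓞 F →+* ZMod (p : ℕ),
      |δ (ZMod (p : ℕ)) (res K ψ) - ch ρ (σ (vx ⟨p, res K ψ⟩))⁻¹| ≤
        C₁ * ((p : ℕ) : ℝ) ^ (-(1 / 2) : ℝ) := by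
    intro ψ
    have h4 := h2 (res K ψ)
    rw [not_not] at h4
    obtain ⟨z, hz, hz'⟩ := h4
    have h5 := valueAt_ker (F := K) (ψ := res K ψ) hz
    have h6 : ∀ φ' : 𝓞 K →+* ZMod (p : ℕ), φ' = res K ψ → P (ZMod (p : ℕ)) φ' z →
        P (ZMod (p : ℕ)) (res K ψ) z := by
      intro φ' h7 h8
      rwa [h7] at h8
    have h7 := hval (ZMod (p : ℕ)) (res K ψ) (h1 (res K ψ)) z
      (h6 _ (RingHom.ext fun x => rfl) h5)
    rw [← h7]
    have h8 : (Ideal.absNorm (kerPrime p (res K ψ)).1.1.asIdeal : ℝ) = ((p : ℕ) : ℝ) := by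
      exact_mod_cast Pool.Agent.H341R2.nm_kerPrime p (res K ψ)
    rw [h8] at hz'
    exact hz'
  have e1 : sm R F δ (ZMod (p : ℕ)) = ∑ ψ : 𝓞 F →+* ZMod (p : ℕ), δ (ZMod (p : ℕ)) (res K ψ) := by
    unfold sm
    rw [finsum_eq_sum_of_fintype]
    refine Finset.sum_congr rfl fun ψ _ => ?_
    exact if_pos (h1 (res K ψ))
  have e2 : cmb (fun j => L j) a p =
      ((∑ ψ : 𝓞 F →+* ZMod (p : ℕ), ch ρ (σ (vx ⟨p, res K ψ⟩))⁻¹ : ℝ) : ℂ) := by
    rw [h3]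
    unfold cmb
    push_cast
    rfl
  rw [e1, e2, ← Complex.ofReal_add, Complex.norm_real, Real.norm_eq_abs, ← Finset.sum_neg_distrib,
    ← Finset.sum_add_distrib]
  refine (Finset.abs_sum_le_sum_abs _ _).trans ?_
  have h4 : ∀ ψ ∈ (Finset.univ : Finset (𝓞 F →+* ZMod (p : ℕ))),
      |-δ (ZMod (p : ℕ)) (res K ψ) + ch ρ (σ (vx ⟨p, res K ψ⟩))⁻¹| ≤
        C₁ * ((p : ℕ) : ℝ) ^ (-(1 / 2) : ℝ) := by
    intro ψ _
    rw [neg_add_eq_sub, abs_sub_comm]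
    exact hval' ψ
  refine (Finset.sum_le_card_nsmul _ _ _ h4).trans ?_
  rw [nsmul_eq_mul, Finset.card_univ, mul_assoc]
  refine mul_le_mul_of_nonneg_right (Nat.cast_le.2 (card_hom_le (K := F) p)) (by positivity)

end

end Pool.Agent.Y707.RX
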