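import Pool.Agent.Y707.RX.Gal
import Pool.Agent.Y707.RX.Ind
import Pool.Agent.W353.FB.Final
import Pool.Agent.W353.NF.Burn

/-! The character of a rational representation as a combination of permutation characters of number
fields. -/

set_option autoImplicit false

namespace Pool.Agent.Y707.RX

open NumberField IsDedekindDomain Pool.Agent.W401.Cheb Pool.Agent.W540.BE Pool.Agent.W353.L1
open Pool.Agent.W353.NF (act act_apply act_trans fixn)
open Pool.Agent.W353.TD (ch rank)

section
variable {K : Type} [Field K] [NumberField K]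

/-- two automorphisms with the same restriction -/
theorem comp_val_iff (M : IntermediateField K (AlgebraicClosure K)) (α β : GK K) :
    (α : AlgebraicClosure K →ₐ[K] AlgebraicClosure K).comp M.val =
      (β : AlgebraicClosure K →ₐ[K] AlgebraicClosure K).comp M.val ↔
    α⁻¹ * β ∈ M.fixingSubgroup := by
  rw [IntermediateField.mem_fixingSubgroup_iff]
  constructor
  · intro h x hx
    have h1 : α x = β x := DFunLike.congr_fun h (⟨x, hx⟩ : M)
    rw [AlgEquiv.mul_apply, ← h1]
    exact α.symm_apply_apply x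
  · intro h
    refine AlgHom.ext fun x => ?_
    have h1 := h (x : AlgebraicClosure K) x.2
    rw [AlgEquiv.mul_apply] at h1
    have h2 := congrArg α h1
    have h3 : α (α⁻¹ (β (x : AlgebraicClosure K))) = β x := α.apply_symm_apply _
    rw [h3] at h2
    exact h2.symm

variable (N : Subgroup (GK K)) [hNn : N.Normal]

/-- the field of a subgroup of a quotient -/
noncomputable def fld (C : Subgroup (GK K ⧸ N)) : IntermediateField K (AlgebraicClosure K) :=
  IntermediateField.fixedField (C.comap (QuotientGroup.mk' N))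

variable {N}

theorem comap_open (hN : IsOpen (N : Set (GK K))) (C : Subgroup (GK K ⧸ N)) :
    IsOpen ((C.comap (QuotientGroup.mk' N) : Subgroup (GK K)) : Set (GK K)) := by
  refine Subgroup.isOpen_mono ?_ hN
  intro σ hσ
  rw [Subgroup.mem_comap, QuotientGroup.mk'_apply, (QuotientGroup.eq_one_iff σ).2 hσ]
  exact C.one_mem

theorem fix_fld (hN : IsOpen (N : Set (GK K))) (C : Subgroup (GK K ⧸ N)) :
    (fld N C).fixingSubgroup = C.comap (QuotientGroup.mk' N) :=
  InfiniteGalois.fixingSubgroup_fixedField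
    ⟨C.comap (QuotientGroup.mk' N), Subgroup.isClosed_of_isOpen _ (comap_open hN C)⟩

theorem fld_nf (hN : IsOpen (N : Set (GK K))) (C : Subgroup (GK K ⧸ N)) :
    NumberField (fld N C) := by
  have : FiniteDimensional K (fld N C) := by
    rw [← InfiniteGalois.isOpen_iff_finite, fix_fld hN]
    exact comap_open hN C
  exact NumberField.of_module_finite K _

/-- fixed embeddings and fixed cosets -/
theorem fixn_fld (hN : IsOpen (N : Set (GK K))) (C : Subgroup (GK K ⧸ N))
    [NumberField (fld N C)] (g : GK K) :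
    (fixn K (fld N C) g : ℝ) = fx C (QuotientGroup.mk g) := by
  classical
  set M := fld N C with hM
  have hmem : ∀ α : GK K, α ∈ M.fixingSubgroup ↔ (QuotientGroup.mk α : GK K ⧸ N) ∈ C := by
    intro α
    rw [hM, fix_fld hN, Subgroup.mem_comap]
    rfl
  let i : ((GK K ⧸ N) ⧸ C) → (M →ₐ[K] AlgebraicClosure K) := fun q =>
    ((q.out.out : GK K) : AlgebraicClosure K →ₐ[K] AlgebraicClosure K).comp M.val
  have hq : ∀ q : (GK K ⧸ N) ⧸ C, (QuotientGroup.mk (QuotientGroup.mk q.out.out : GK K ⧸ N) :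
      (GK K ⧸ N) ⧸ C) = q := by
    intro q
    rw [QuotientGroup.out_eq', QuotientGroup.out_eq']
  have hcomp : ∀ α β : GK K, (α : AlgebraicClosure K →ₐ[K] AlgebraicClosure K).comp M.val =
      (β : AlgebraicClosure K →ₐ[K] AlgebraicClosure K).comp M.val ↔
      (QuotientGroup.mk (QuotientGroup.mk α : GK K ⧸ N) : (GK K ⧸ N) ⧸ C) =
        QuotientGroup.mk (QuotientGroup.mk β : GK K ⧸ N) := by
    intro α β
    rw [comp_val_iff, hmem, QuotientGroup.eq]
    rfl
  have hinj : Function.Injective i := by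
    intro q q' h
    have h1 := (hcomp _ _).1 h
    rwa [hq, hq] at h1
  have hsurj : Function.Surjective i := by
    intro j
    obtain ⟨α, hα⟩ := act_trans K M M.val j
    refine ⟨QuotientGroup.mk (QuotientGroup.mk α), ?_⟩
    rw [← hα, act_apply]
    refine (hcomp _ _).2 ?_
    rw [hq]
  have hfix : ∀ q, act K M g (i q) = i q ↔ (QuotientGroup.mk g : GK K ⧸ N) • q = q := by
    intro q
    have e : act K M g (i q) =
        ((g * q.out.out : GK K) : AlgebraicClosure K →ₐ[K] AlgebraicClosure K).comp M.val := rfl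
    rw [e]
    change ((g * q.out.out : GK K) : AlgebraicClosure K →ₐ[K] AlgebraicClosure K).comp M.val =
      ((q.out.out : GK K) : AlgebraicClosure K →ₐ[K] AlgebraicClosure K).comp M.val ↔ _
    rw [hcomp, hq]
    have e2 : (QuotientGroup.mk (QuotientGroup.mk (g * q.out.out) : GK K ⧸ N) :
        (GK K ⧸ N) ⧸ C) = (QuotientGroup.mk g : GK K ⧸ N) • q := by
      conv_rhs => rw [← hq q]
      rfl
    rw [e2]
  unfold fixn fx
  congr 1
  exact (Nat.card_congr (Equiv.subtypeEquiv (Equiv.ofBijective i ⟨hinj, hsurj⟩) fun q =>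
    (hfix q).symm)).symm

variable {W : Type} [AddCommGroup W] [Module ℚ W] [FiniteDimensional ℚ W]

/-- the character is constant on the divisions -/
theorem div_ch (ρ : Representation ℚ (GK K) W) (hρ : ∀ u ∈ N, ρ u = 1)
    [Finite (GK K ⧸ N)] : Div fun q : GK K ⧸ N => ch ρ q.out := by
  classical
  have hout : ∀ (g : GK K), ρ (QuotientGroup.mk g : GK K ⧸ N).out = ρ g := by
    intro g
    have h1 : (QuotientGroup.mk (QuotientGroup.mk g : GK K ⧸ N).out : GK K ⧸ N) =
        QuotientGroup.mk g := QuotientGroup.out_eq' _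
    rw [QuotientGroup.eq] at h1
    have h2 := hρ _ h1
    have h3 : g = (QuotientGroup.mk g : GK K ⧸ N).out *
      (((QuotientGroup.mk g : GK K ⧸ N).out)⁻¹ * g) := by group
    conv_rhs => rw [h3, map_mul, h2, mul_one]
  have hconj : ∀ a h : GK K ⧸ N, ch ρ (a * h * a⁻¹).out = ch ρ h.out := by
    intro a h
    obtain ⟨a, rfl⟩ := QuotientGroup.mk_surjective a
    obtain ⟨h, rfl⟩ := QuotientGroup.mk_surjective h
    rw [← QuotientGroup.mk_inv, ← QuotientGroup.mk_mul, ← QuotientGroup.mk_mul]
    unfold ch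
    rw [hout, hout]
    congr 1
    rw [map_mul, LinearMap.trace_mul_comm, ← map_mul, inv_mul_cancel_left]
  intro g h a e
  change ch ρ g.out = ch ρ h.out
  rw [← hconj a h]
  set k := a * h * a⁻¹ with hk
  clear_value k
  -- `g` is a power of `k` prime to the order
  have h1 : g ∈ Subgroup.zpowers k := by
    rw [← e]
    exact Subgroup.mem_zpowers g
  have h1' := (mem_zpowers_iff_mem_range_orderOf (x := k) (y := g)).1 h1
  rw [Finset.mem_image] at h1'
  obtain ⟨m, _, hm⟩ := h1'
  have hpos : 0 < orderOf k := orderOf_pos k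
  have h2 : m.Coprime (orderOf k) := by
    have h3 : orderOf g = orderOf k := by
      rw [← Nat.card_zpowers, ← Nat.card_zpowers, e]
    rw [← hm, orderOf_pow] at h3
    have h4 : Nat.gcd (orderOf k) m = 1 := by
      have h5 := Nat.div_mul_cancel (Nat.gcd_dvd_left (orderOf k) m)
      rw [h3] at h5
      exact Nat.eq_of_mul_eq_mul_left hpos (by rw [h5, mul_one])
    rw [Nat.Coprime, Nat.gcd_comm]
    exact h4
  obtain ⟨α, rfl⟩ := QuotientGroup.mk_surjective k
  rw [← hm]
  change ((LinearMap.trace ℚ W (ρ (QuotientGroup.mk (α ^ m) : GK K ⧸ N).out) : ℚ) : ℝ) =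
    ((LinearMap.trace ℚ W (ρ (QuotientGroup.mk α : GK K ⧸ N).out) : ℚ) : ℝ)
  rw [hout, hout, map_pow]
  congr 1
  refine trace_pow_coprime hpos ?_ h2
  rw [← map_pow]
  refine hρ _ ?_
  rw [← QuotientGroup.eq_one_iff]
  exact pow_orderOf_eq_one (QuotientGroup.mk α : GK K ⧸ N)

/-- **Artin's theorem** for rational representations of the Galois group. -/
theorem exists_comb (ρ : Representation ℚ (GK K) W)
    (hρ : ∃ U : Subgroup (GK K), IsOpen (U : Set (GK K)) ∧ ∀ u ∈ U, ρ u = 1) :
    ∃ (κ : Type) (_ : Fintype κ) (L : κ → IntermediateField K (AlgebraicClosure K))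
      (_ : ∀ j, NumberField (L j)) (c : κ → ℝ),
      ∀ g : GK K, ch ρ g = ∑ j, c j * (fixn K (L j) g : ℝ) := by
  classical
  obtain ⟨U, hU, hU1⟩ := hρ
  -- the kernel
  let N : Subgroup (GK K) := MonoidHom.ker (ρ : GK K →* Module.End ℚ W)
  have hN1 : ∀ u ∈ N, ρ u = 1 := fun u hu => hu
  have hN : IsOpen (N : Set (GK K)) := Subgroup.isOpen_mono (fun u hu => hU1 u hu) hU
  have hfin : Finite (GK K ⧸ N) := Subgroup.quotient_finite_of_isOpen N hN
  let _ : Fintype (GK K ⧸ N) := Fintype.ofFinite _
  obtain ⟨c, hc⟩ := artin (div_ch (N := N) ρ hN1)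
  have hnf := fun C => fld_nf hN C
  refine ⟨Subgroup (GK K ⧸ N), inferInstance, fun C => fld N C, hnf, c, fun g => ?_⟩
  have h1 := hc (QuotientGroup.mk g)
  have h2 : ch ρ (QuotientGroup.mk g : GK K ⧸ N).out = ch ρ g := by
    have h3 : (QuotientGroup.mk (QuotientGroup.mk g : GK K ⧸ N).out : GK K ⧸ N) =
        QuotientGroup.mk g := QuotientGroup.out_eq' _
    rw [QuotientGroup.eq] at h3
    have h4 := hN1 _ h3
    have h5 : g = (QuotientGroup.mk g : GK K ⧸ N).out *
      (((QuotientGroup.mk g : GK K ⧸ N).out)⁻¹ * g) := by group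
    unfold ch
    conv_rhs => rw [h5, map_mul, h4, mul_one]
  rw [← h2]
  refine h1.trans (Finset.sum_congr rfl fun C _ => ?_)
  rw [← fixn_fld hN C g]

end

end Pool.Agent.Y707.RX
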