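import Pool.Agent.H332R2.PIT.Main
import Pool.Agent.H484R2.Pit
import Pool.Agent.H126R3.SumQ
import Pool.Agent.H126R3.Fibers

/-! The sum over the primes of degree one of a number field, near `1`. -/

set_option autoImplicit false

namespace Pool.Agent.Y707.RX

open NumberField Filter Topology
open Pool.Agent.H126R3 (Qc Qc_pos Qc_rpow summable_Q pair_unique)
open H332.PIT

section
variable (L : Type) [Field L] [NumberField L]

/-- the number of the homomorphisms to the prime field -/
noncomputable def rn (n : ℕ) : ℂ := open scoped Classical in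
  if n.Prime then (Nat.card (𝓞 L →+* ZMod n) : ℂ) else 0

/-- the other coefficients -/
noncomputable def en (n : ℕ) : ℂ := open scoped Classical in
  if n.Prime then 0 else (LamK L n : ℂ)

/-- the sum over the primes of degree one -/
noncomputable def PS (w : ℂ) : ℂ :=
  ∑' p : Nat.Primes, (Nat.card (𝓞 L →+* ZMod (p : ℕ)) : ℂ) * ((p : ℕ) : ℂ) ^ (-w)

variable {L}

theorem rn_le (n : ℕ) : ‖rn L n‖ ≤ Module.finrank ℚ L := by
  unfold rn
  split_ifs with h
  · rw [Complex.norm_natCast]
    exact hc_cast_le h
  · rw [norm_zero]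
    exact Nat.cast_nonneg _

theorem rn_absc : LSeries.abscissaOfAbsConv (rn L) ≤ 1 := by
  refine LSeries.abscissaOfAbsConv_le_of_forall_lt_LSeriesSummable (x := 1) fun y hy => ?_
  exact LSeriesSummable_of_bounded_of_one_lt_real (fun n _ => rn_le n) hy

theorem rn_summable {s : ℂ} (hs : 1 < s.re) : LSeriesSummable (rn L) s :=
  LSeriesSummable_of_bounded_of_one_lt_re (fun n _ => rn_le n) hs

theorem PS_eq (w : ℂ) : PS L w = LSeries (rn L) w := by
  unfold PS LSeries
  have h1 : (fun p : Nat.Primes => (Nat.card (𝓞 L →+* ZMod (p : ℕ)) : ℂ) * ((p : ℕ) : ℂ) ^ (-w)) =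
      (fun n : ℕ => LSeries.term (rn L) w n) ∘ fun p : Nat.Primes => (p : ℕ) := by
    funext p
    rw [Function.comp_apply, LSeries.term_of_ne_zero p.2.ne_zero]
    unfold rn
    rw [if_pos p.2, Complex.cpow_neg, div_eq_mul_inv]
  rw [h1]
  refine Function.Injective.tsum_eq (g := fun p : Nat.Primes => (p : ℕ)) Subtype.val_injective ?_
  intro n hn
  rw [Function.mem_support] at hn
  have h2 : n.Prime := by
    by_contra h
    apply hn
    rcases eq_or_ne n 0 with rfl | h0
    · exact LSeries.term_zero _ _
    · rw [LSeries.term_of_ne_zero h0]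
      unfold rn
      rw [if_neg h, zero_div]
  exact ⟨⟨n, h2⟩, rfl⟩

theorem logMul_rn (n : ℕ) : LSeries.logMul (rn L) n = (LamK L n : ℂ) - en L n := by
  unfold LSeries.logMul rn en
  split_ifs with h
  · rw [sub_zero, LamK_prime' h]
    push_cast
    rw [← Complex.natCast_log]
    push_cast
    ring
  · rw [mul_zero, sub_self]

/-- the coefficients at the non-primes -/
theorem en_summable {y : ℝ} (hy : 1 / 2 < y) : LSeriesSummable (en L) (y : ℂ) := by
  classical
  set d : ℝ := (Module.finrank ℚ L : ℝ) ^ 2 with hd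
  have hd0 : 0 ≤ d := sq_nonneg _
  set δ : ℝ := (y - 1 / 2) / 2 with hδ
  have hδ0 : 0 < δ := by rw [hδ]; linarith
  -- the function on the natural numbers
  let u : ℕ → ℝ := fun n => if n.Prime then 0 else
    d * (ArithmeticFunction.vonMangoldt n * (n : ℝ) ^ (-y))
  have hu : Summable u := by
    have hinj : Function.Injective (fun c : Nat.Primes × ℕ => Qc c) := by
      intro c c' h
      exact pair_unique h
    refine (hinj.summable_iff (f := u) ?_).1 ?_
    · intro n hn
      change (if n.Prime then (0 : ℝ) else _) = 0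
      split_ifs with h
      · rfl
      · have h1 : ¬ IsPrimePow n := by
          rintro h2
          rw [isPrimePow_nat_iff] at h2
          obtain ⟨p, k, hp, hk, rfl⟩ := h2
          apply hn
          refine ⟨(⟨p, hp⟩, k - 1), ?_⟩
          change p ^ (k - 1 + 1) = p ^ k
          rw [Nat.sub_add_cancel hk]
        rw [ArithmeticFunction.vonMangoldt_eq_zero_iff.2 h1, zero_mul, mul_zero]
    · have h1 := (summable_Q (y - δ) (by rw [hδ]; linarith) 1 (by
        rw [hδ]
        push_cast
        linarith)).mul_left (d * (1 / δ))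
      refine Summable.of_nonneg_of_le (fun c => ?_) (fun c => ?_) h1
      · change 0 ≤ if (Qc c).Prime then (0 : ℝ) else _
        split_ifs
        · exact le_rfl
        · exact mul_nonneg hd0 (mul_nonneg ArithmeticFunction.vonMangoldt_nonneg (by positivity))
      · change (if (Qc c).Prime then (0 : ℝ) else
          d * (ArithmeticFunction.vonMangoldt (Qc c) * ((Qc c : ℕ) : ℝ) ^ (-y))) ≤ _
        have hq0 : (0 : ℝ) < ((Qc c : ℕ) : ℝ) := by exact_mod_cast Qc_pos c
        by_cases hc : (Qc c).Prime
        · rw [if_pos hc]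
          have : (0 : ℝ) ≤ if 1 ≤ c.2 then ((Qc c : ℕ) : ℝ) ^ (-(y - δ)) else 0 := by
            split_ifs
            · positivity
            · exact le_rfl
          exact mul_nonneg (mul_nonneg hd0 (by positivity)) this
        · rw [if_neg hc]
          have hc1 : 1 ≤ c.2 := by
            by_contra h
            apply hc
            have h2 : c.2 = 0 := by omega
            unfold Qc
            rw [h2, zero_add, pow_one]
            exact c.1.2
          rw [if_pos hc1, mul_assoc]
          refine mul_le_mul_of_nonneg_left ?_ hd0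
          have h3 : ArithmeticFunction.vonMangoldt (Qc c) ≤ ((Qc c : ℕ) : ℝ) ^ δ / δ :=
            ArithmeticFunction.vonMangoldt_le_log.trans
              (Real.log_le_rpow_div (Nat.cast_nonneg _) hδ0)
          refine (mul_le_mul_of_nonneg_right h3 (by positivity)).trans (le_of_eq ?_)
          rw [neg_sub, sub_eq_add_neg, Real.rpow_add hq0]
          field_simp
  refine Summable.of_norm_bounded hu fun n => ?_
  rcases eq_or_ne n 0 with rfl | h0
  · rw [LSeries.term_zero, norm_zero]
    change 0 ≤ if (0 : ℕ).Prime then (0 : ℝ) else _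
    rw [if_neg Nat.not_prime_zero, ArithmeticFunction.map_zero, zero_mul, mul_zero]
  · rw [LSeries.term_of_ne_zero h0]
    change _ ≤ if n.Prime then (0 : ℝ) else _
    unfold en
    split_ifs with h
    · rw [zero_div, norm_zero]
    · rw [norm_div, Complex.norm_real, Real.norm_of_nonneg (LamK_nonneg n),
        Complex.norm_natCast_cpow_of_pos (Nat.pos_of_ne_zero h0), Complex.ofReal_re,
        Real.rpow_neg (Nat.cast_nonneg _), ← div_eq_mul_inv, ← mul_div_assoc]
      exact div_le_div_of_nonneg_right (LamK_le n) (by positivity)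

theorem en_absc : LSeries.abscissaOfAbsConv (en L) ≤ ((1 / 2 : ℝ) : EReal) :=
  LSeries.abscissaOfAbsConv_le_of_forall_lt_LSeriesSummable (x := 1 / 2) fun _ hy =>
    en_summable hy

theorem half_lt {z : ℂ} (hz : 1 / 2 < z.re) : LSeries.abscissaOfAbsConv (en L) < z.re :=
  lt_of_le_of_lt en_absc (by exact_mod_cast hz)

theorem logMul_sum {z : ℂ} (hz : 1 < z.re) :
    LSeries (LSeries.logMul (rn L)) z = LL L z - LSeries (en L) z := by
  have h1 : LSeries.logMul (rn L) = (fun n => (LamK L n : ℂ)) - en L := by
    funext n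
    exact logMul_rn n
  rw [h1]
  have h2 : LSeriesSummable (fun n => (LamK L n : ℂ)) z := LamK_summable hz
  have h3 : LSeriesSummable (en L) z :=
    LSeriesSummable_of_abscissaOfAbsConv_lt_re (half_lt (by linarith))
  exact LSeries_sub h2 h3

theorem PS_deriv {z : ℂ} (hz : 1 < z.re) :
    HasDerivAt (PS L) (-(LL L z - LSeries (en L) z)) z := by
  have h1 : PS L = LSeries (rn L) := funext fun w => PS_eq w
  rw [h1, ← logMul_sum hz]
  exact LSeries_hasDerivAt (one_lt_re rn_absc hz)

variable (L)

/-- **The sum over the primes of degree one near `1`.** -/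
theorem PS_log : ∃ B : ℂ → ℂ, AnalyticAt ℂ B 1 ∧
    ∀ᶠ w in 𝓝 (1 : ℂ), 1 < w.re → PS L w = -Complex.log (w - 1) + B w := by
  obtain ⟨g, hg, hgz⟩ := Pool.Agent.H484R2.continuation L 0
  have hne := cont_zero_ne hg hgz
  have hlog := logderiv_cont hgz
  have e0 : (1 : ℂ) + ((0 : ℝ) : ℂ) * Complex.I = 1 := by simp
  rw [e0] at hg hgz hne hlog
  -- the analytic part of the derivative
  set a : ℂ → ℂ := fun z => deriv g z / g z + LSeries (en L) z with ha
  have han : AnalyticAt ℂ a 1 := by
    refine (hg.deriv.div hg hne).add ?_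
    refine LSeries_analyticOnNhd (en L) 1 ?_
    exact half_lt (by norm_num)
  obtain ⟨r, hr, hball⟩ := Metric.eventually_nhds_iff_ball.1 (han.eventually_analyticAt.and hlog)
  have hd : DifferentiableOn ℂ a (Metric.ball 1 r) := fun z hz =>
    (hball z hz).1.differentiableAt.differentiableWithinAt
  obtain ⟨A, hA⟩ := hd.isExactOn_ball
  -- the convex region
  set U : Set ℂ := Metric.ball 1 r ∩ {z : ℂ | 1 < z.re} with hU
  have hUo : IsOpen U := Metric.isOpen_ball.inter isOpen_re
  have hUc : IsPreconnected U :=
    ((convex_ball 1 r).inter (convex_halfSpace_re_gt 1)).isPreconnected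
  have hslit : ∀ z ∈ U, z - 1 ∈ Complex.slitPlane := by
    intro z hz
    refine Complex.mem_slitPlane_iff.2 (Or.inl ?_)
    have : (1 : ℝ) < z.re := hz.2
    simp only [Complex.sub_re, Complex.one_re]
    linarith
  have hder : ∀ z ∈ U, HasDerivAt (fun z => PS L z + Complex.log (z - 1) - A z) 0 z := by
    intro z hz
    have h1 := PS_deriv (L := L) hz.2
    have h2 : HasDerivAt (fun z => Complex.log (z - 1)) (1 / (z - 1)) z :=
      ((hasDerivAt_id z).sub_const 1).clog (hslit z hz)
    refine ((h1.add h2).sub (hA z hz.1)).congr_deriv ?_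
    have h3 := (hball z hz.1).2 hz.2
    rw [ha]
    simp only
    rw [h3]
    ring
  have hmem : (1 + ((r / 2 : ℝ) : ℂ)) ∈ U := by
    constructor
    · rw [Metric.mem_ball, dist_eq_norm, add_sub_cancel_left, Complex.norm_real,
        Real.norm_of_nonneg (by positivity)]
      linarith
    · simp only [Set.mem_ofPred_eq, Complex.add_re, Complex.one_re, Complex.ofReal_re]
      linarith
  have hconst : ∀ z ∈ U, PS L z + Complex.log (z - 1) - A z =
      (fun z => PS L z + Complex.log (z - 1) - A z) (1 + ((r / 2 : ℝ) : ℂ)) := by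
    intro z hz
    refine hUo.is_const_of_deriv_eq_zero hUc
      (fun w hw => (hder w hw).differentiableAt.differentiableWithinAt)
      (fun w hw => (hder w hw).deriv) hz hmem
  refine ⟨fun z => A z + (fun z => PS L z + Complex.log (z - 1) - A z) (1 + ((r / 2 : ℝ) : ℂ)),
    ?_, ?_⟩
  · refine AnalyticAt.add ?_ analyticAt_const
    have h1 : DifferentiableOn ℂ A (Metric.ball 1 r) := fun z hz =>
      (hA z hz).differentiableAt.differentiableWithinAt
    exact h1.analyticAt (Metric.isOpen_ball.mem_nhds (Metric.mem_ball_self hr))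
  · filter_upwards [Metric.ball_mem_nhds (1 : ℂ) hr] with z hz hz1
    have h9 := hconst z ⟨hz, hz1⟩
    simp only at h9 ⊢
    rw [← h9]
    ring

end

end Pool.Agent.Y707.RX
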